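import Pool.Agent.Lib.MP_7ab245_nt.Cnt2.Defs

/-!
CN2-Num: the numerical estimates.

PROOF. Given `0 < ε ≤ 1/2`. Let `l = log (2N) ≥ log 2`. For `1 ≤ T ≤ N^(1/2-ε)`, `1 ≤ N`: `s = 1 + l` (so `4 j e^{-s} ≤ 4 N/(2N) ≤ 2`), `Λ = ε l / 4`, `M0 j = ⌈60 (j log (2jT))/Λ²⌉₊ + 1`.
`log (2jT) ≤ log (2N * N) ≤ 2 l`, so `M0 j ≤ 120 j l * 16/(ε² l²) + 2 = 1920 j/(ε² l) + 2`. `e^{4Λ} = (2N)^ε`, `T² ≤ N^(1-2ε)`, so `160 s T² e^{4Λ} ≤ 160 (1+l) 2^ε N^(1-ε)`.
Put `α = 19 * 1920/(ε² l)` and `β = 38 + 2 + 160 (1+l) * 2 * N^(1-ε) + log (4 N)`: then the first conclusion holds. Second conclusion: `2 (β + log (N+2)) (Nat.log 2 j + 1) ≤ C' N/l` for some `C'` depending only on `ε`,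
because `β ≤ C'' (1+l) N^(1-ε)` , `Nat.log 2 j + 1 ≤ 1 + l/log 2`, and `l^3 N^(1-ε) ≤ C''' N`: `l^3 ≤ C''' N^ε` (Real.log_le_rpow_div or Real.add_one_le_exp; e.g. `log x ≤ x^a / a`, Real.log_le_rpow_div, with `a = ε/3`).
-/

set_option autoImplicit false

open Finset

namespace Pool.Agent.Lib.MP_7ab245_nt.Cnt2

open Pool.Agent.Lib.MP_7ab245_nt.LogVar Pool.Agent.Lib.MP_7ab245_nt.Cnt

theorem num (ε : ℝ) (hε : 0 < ε) (hε2 : ε ≤ 1 / 2) : ∃ C : ℝ, 0 < C ∧
    ∀ (N : ℕ) (T : ℝ), 1 ≤ N → 1 ≤ T → T ≤ (N : ℝ) ^ (1 / 2 - ε) →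
      ∃ Λ s α β : ℝ, 0 < Λ ∧ 1 ≤ s ∧ 0 ≤ α ∧ 4 * T ≤ Real.exp β ∧
        (∀ j ≤ N, ∃ M0 : ℕ, 1 ≤ M0 ∧ 60 * (j * Real.log (2 * j * T)) ≤ M0 * Λ ^ 2 ∧
          Real.log (4 * T) + (19 * M0 + (4 * j * Real.exp (-s) +
            160 * s * T ^ 2 * Real.exp (4 * Λ))) ≤ α * j + β) ∧
        (∀ j ≤ N, α * j + 2 * (β + Real.log (N + 2)) * ((Nat.log 2 j : ℕ) + 1) ≤
          C * (N / Real.log (2 * N))) := by
  refine ⟨36480 / ε ^ 2 + 78192 / ε ^ 3, by positivity, ?_⟩
  intro N T hN hT1 hT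
  have hN1 : (1 : ℝ) ≤ N := by exact_mod_cast hN
  have hN0 : (0 : ℝ) < N := by linarith
  set l : ℝ := Real.log (2 * N) with hl
  have h2N : (0 : ℝ) < 2 * N := by linarith
  have hl0 : 0 < l := Real.log_pos (by linarith)
  set P : ℝ := (N : ℝ) ^ (1 - ε) with hP
  have hP1 : 1 ≤ P := Real.one_le_rpow hN1 (by linarith)
  have hT0 : 0 < T := by linarith
  have hTN : T ≤ N := by
    refine le_trans hT ?_
    calc (N : ℝ) ^ (1 / 2 - ε) ≤ (N : ℝ) ^ (1 : ℝ) :=
          Real.rpow_le_rpow_of_exponent_le hN1 (by linarith)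
      _ = N := Real.rpow_one _
  have hexp : Real.exp l = 2 * N := Real.exp_log h2N
  -- logarithms at most `2 l`
  have hlog : ∀ x : ℝ, 0 < x → x ≤ 4 * (N : ℝ) ^ 2 → Real.log x ≤ 2 * l := by
    intro x hx hx2
    have h1 : Real.log x ≤ Real.log ((2 * N) ^ 2) := Real.log_le_log hx (by nlinarith)
    rw [Real.log_pow, ← hl] at h1
    push_cast at h1
    exact h1
  have hNsq : (N : ℝ) ≤ (N : ℝ) ^ 2 := by nlinarith
  have h4T : Real.log (4 * T) ≤ 2 * l := hlog _ (by linarith) (by nlinarith)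
  have hN2 : Real.log (N + 2) ≤ 2 * l := hlog _ (by linarith) (by nlinarith)
  have hT2 : T ^ 2 ≤ (N : ℝ) ^ (1 - 2 * ε) := by
    have h1 : T ^ 2 ≤ ((N : ℝ) ^ (1 / 2 - ε)) ^ 2 := pow_le_pow_left₀ hT0.le hT 2
    have h2 : ((N : ℝ) ^ (1 / 2 - ε)) ^ 2 = (N : ℝ) ^ (1 - 2 * ε) := by
      rw [← Real.rpow_natCast, ← Real.rpow_mul hN0.le]
      congr 1
      push_cast
      ring
    rwa [h2] at h1
  have hE : Real.exp (4 * (ε * l / 4)) ≤ 2 * (N : ℝ) ^ ε := by
    have h1 : Real.exp (4 * (ε * l / 4)) = (2 * (N : ℝ)) ^ ε := by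
      rw [Real.rpow_def_of_pos h2N]
      congr 1
      ring
    rw [h1, Real.mul_rpow (by norm_num) hN0.le]
    refine mul_le_mul_of_nonneg_right ?_ (Real.rpow_nonneg hN0.le _)
    calc (2 : ℝ) ^ ε ≤ (2 : ℝ) ^ (1 : ℝ) :=
          Real.rpow_le_rpow_of_exponent_le (by norm_num) (by linarith)
      _ = 2 := Real.rpow_one _
  have hTE : T ^ 2 * Real.exp (4 * (ε * l / 4)) ≤ 2 * P := by
    calc T ^ 2 * Real.exp (4 * (ε * l / 4)) ≤ (N : ℝ) ^ (1 - 2 * ε) * (2 * (N : ℝ) ^ ε) :=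
          mul_le_mul hT2 hE (Real.exp_pos _).le (Real.rpow_nonneg hN0.le _)
      _ = 2 * ((N : ℝ) ^ (1 - 2 * ε) * (N : ℝ) ^ ε) := by ring
      _ = 2 * P := by
          rw [← Real.rpow_add hN0, hP]
          congr 2
          ring
  have hlP : (1 + l) ≤ (1 + l) * P := by nlinarith
  have hlog2 : (0.69 : ℝ) < Real.log 2 := by
    have := Real.log_two_gt_d9
    linarith
  -- the main estimate `(1 + l) ^ 3 P ≤ (54 / ε ^ 3) N`
  have hcube : (1 + l) ^ 3 * P ≤ 54 / ε ^ 3 * N := by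
    have h1 : 1 + l ≤ 3 / ε * Real.exp (ε * l / 3) := by
      have h2 : ε * l / 3 + 1 ≤ Real.exp (ε * l / 3) := Real.add_one_le_exp _
      have h3 : 1 + l ≤ 3 / ε * (ε * l / 3 + 1) := by
        have h4 : 3 / ε * (ε * l / 3 + 1) = l + 3 / ε := by
          field_simp
        have h5 : 1 ≤ 3 / ε := by
          rw [le_div_iff₀ hε]
          linarith
        linarith
      exact le_trans h3 (mul_le_mul_of_nonneg_left h2 (by positivity))
    have h6 : (1 + l) ^ 3 ≤ (3 / ε * Real.exp (ε * l / 3)) ^ 3 :=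
      pow_le_pow_left₀ (by linarith) h1 3
    have h7 : (3 / ε * Real.exp (ε * l / 3)) ^ 3 = 27 / ε ^ 3 * Real.exp (4 * (ε * l / 4)) := by
      rw [mul_pow, div_pow, ← Real.exp_nat_mul]
      have : ((3 : ℕ) : ℝ) * (ε * l / 3) = 4 * (ε * l / 4) := by
        push_cast
        ring
      rw [this]
      norm_num
    have h8 : (N : ℝ) ^ ε * P = N := by
      rw [hP, ← Real.rpow_add hN0]
      have : ε + (1 - ε) = 1 := by ring
      rw [this, Real.rpow_one]
    calc (1 + l) ^ 3 * P ≤ (27 / ε ^ 3 * Real.exp (4 * (ε * l / 4))) * P := by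
          rw [h7] at h6
          exact mul_le_mul_of_nonneg_right h6 (by linarith)
      _ ≤ (27 / ε ^ 3 * (2 * (N : ℝ) ^ ε)) * P :=
          mul_le_mul_of_nonneg_right (mul_le_mul_of_nonneg_left hE (by positivity)) (by linarith)
      _ = 54 / ε ^ 3 * ((N : ℝ) ^ ε * P) := by ring
      _ = 54 / ε ^ 3 * N := by rw [h8]
  have hjN : ∀ j : ℕ, j ≤ N → (j : ℝ) ≤ N := fun j hj => by exact_mod_cast hj
  refine ⟨ε * l / 4, 1 + l, 36480 / (ε ^ 2 * l), 360 * ((1 + l) * P), by positivity, by linarith,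
    by positivity, ?_, ?_, ?_⟩
  · have h1 : Real.log (4 * T) ≤ 360 * ((1 + l) * P) := by linarith
    calc 4 * T = Real.exp (Real.log (4 * T)) := (Real.exp_log (by linarith)).symm
      _ ≤ _ := Real.exp_le_exp.2 h1
  · intro j hj
    have hjN' := hjN j hj
    have hj0 : (0 : ℝ) ≤ j := Nat.cast_nonneg j
    set Λ : ℝ := ε * l / 4 with hΛ
    have hΛ0 : 0 < Λ := by positivity
    have hjl : (j : ℝ) * Real.log (2 * j * T) ≤ 2 * j * l := by
      rcases Nat.eq_zero_or_pos j with h0 | h0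
      · subst h0
        simp
      · have hj1 : (1 : ℝ) ≤ j := by exact_mod_cast h0
        have h1 : Real.log (2 * j * T) ≤ 2 * l := by
          apply hlog _ (by positivity)
          have : (j : ℝ) * T ≤ N * N := mul_le_mul hjN' hTN hT0.le hN0.le
          nlinarith
        nlinarith
    have hjl0 : 0 ≤ (j : ℝ) * Real.log (2 * j * T) := by
      rcases Nat.eq_zero_or_pos j with h0 | h0
      · subst h0
        simp
      · have hj1 : (1 : ℝ) ≤ j := by exact_mod_cast h0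
        apply mul_nonneg hj0
        apply Real.log_nonneg
        have : (1 : ℝ) ≤ j * T := by nlinarith
        nlinarith
    refine ⟨⌈60 * (j * Real.log (2 * j * T)) / Λ ^ 2⌉₊ + 1, by omega, ?_, ?_⟩
    · have h1 := Nat.le_ceil (60 * (j * Real.log (2 * j * T)) / Λ ^ 2)
      have h2 : 60 * (j * Real.log (2 * j * T)) =
          (60 * (j * Real.log (2 * j * T)) / Λ ^ 2) * Λ ^ 2 := by
        field_simp
      rw [h2]
      refine mul_le_mul_of_nonneg_right ?_ (by positivity)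
      rw [← h2]
      push_cast
      linarith
    · have h1 : ((⌈60 * (j * Real.log (2 * j * T)) / Λ ^ 2⌉₊ + 1 : ℕ) : ℝ) ≤
          1920 * j / (ε ^ 2 * l) + 2 := by
        have h2 := (Nat.ceil_lt_add_one (a := 60 * (j * Real.log (2 * j * T)) / Λ ^ 2)
          (by positivity)).le
        have h3 : 60 * (j * Real.log (2 * j * T)) / Λ ^ 2 ≤ 1920 * j / (ε ^ 2 * l) := by
          calc 60 * (j * Real.log (2 * j * T)) / Λ ^ 2 ≤ 60 * (2 * j * l) / Λ ^ 2 := by
                refine div_le_div_of_nonneg_right ?_ (by positivity)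
                linarith
            _ = 1920 * j / (ε ^ 2 * l) := by
                rw [hΛ]
                field_simp
                ring
        push_cast
        linarith
      have h4 : 4 * j * Real.exp (-(1 + l)) ≤ 2 := by
        have h5 : Real.exp (-(1 + l)) ≤ (2 * (N : ℝ))⁻¹ := by
          rw [← hexp, ← Real.exp_neg]
          exact Real.exp_le_exp.2 (by linarith)
        calc 4 * j * Real.exp (-(1 + l)) ≤ 4 * N * (2 * (N : ℝ))⁻¹ :=
              mul_le_mul (by linarith) h5 (Real.exp_pos _).le (by linarith)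
          _ = 2 := by
              field_simp
              norm_num
      have h6 : 160 * (1 + l) * T ^ 2 * Real.exp (4 * Λ) ≤ 320 * ((1 + l) * P) := by
        calc 160 * (1 + l) * T ^ 2 * Real.exp (4 * Λ) =
              160 * (1 + l) * (T ^ 2 * Real.exp (4 * Λ)) := by ring
          _ ≤ 160 * (1 + l) * (2 * P) := mul_le_mul_of_nonneg_left hTE (by positivity)
          _ = _ := by ring
      have h7 : 36480 / (ε ^ 2 * l) * (j : ℝ) = 19 * (1920 * j / (ε ^ 2 * l)) := by ring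
      rw [h7]
      linarith
  · intro j hj
    have hjN' := hjN j hj
    have hj0 : (0 : ℝ) ≤ j := Nat.cast_nonneg j
    have h1 : 36480 / (ε ^ 2 * l) * (j : ℝ) ≤ 36480 / ε ^ 2 * (N / l) := by
      calc 36480 / (ε ^ 2 * l) * (j : ℝ) ≤ 36480 / (ε ^ 2 * l) * (N : ℝ) :=
            mul_le_mul_of_nonneg_left hjN' (by positivity)
        _ = _ := by field_simp
    have h2 : ((Nat.log 2 j : ℕ) : ℝ) ≤ 2 * l := by
      rcases Nat.eq_zero_or_pos j with h0 | h0
      · subst h0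
        simp
        linarith
      · have h3 : 2 ^ Nat.log 2 j ≤ j := Nat.pow_log_le_self 2 (by omega)
        have h4 : ((2 : ℝ) ^ Nat.log 2 j) ≤ 2 * N := by
          have : ((2 : ℝ) ^ Nat.log 2 j) ≤ j := by exact_mod_cast h3
          linarith
        have h5 : Real.log ((2 : ℝ) ^ Nat.log 2 j) ≤ l := Real.log_le_log (by positivity) h4
        rw [Real.log_pow] at h5
        have h6 : (0 : ℝ) ≤ (Nat.log 2 j : ℕ) := Nat.cast_nonneg _
        nlinarith
    have h3 : 2 * (360 * ((1 + l) * P) + Real.log (N + 2)) * ((Nat.log 2 j : ℕ) + 1) ≤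
        1448 * ((1 + l) ^ 2 * P) := by
      have h4 : 360 * ((1 + l) * P) + Real.log (N + 2) ≤ 362 * ((1 + l) * P) := by linarith
      have h5 : (((Nat.log 2 j : ℕ) : ℝ) + 1) ≤ 2 * (1 + l) := by linarith
      calc 2 * (360 * ((1 + l) * P) + Real.log (N + 2)) * ((Nat.log 2 j : ℕ) + 1) ≤
            2 * (362 * ((1 + l) * P)) * (2 * (1 + l)) := by
              apply mul_le_mul (by linarith) h5 (by positivity) (by positivity)
        _ = _ := by ring
    have h4 : 1448 * ((1 + l) ^ 2 * P) ≤ 78192 / ε ^ 3 * (N / l) := by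
      have h5 : (1 + l) ^ 2 * P * l ≤ 54 / ε ^ 3 * N := by
        refine le_trans ?_ hcube
        have : (1 + l) ^ 3 * P = (1 + l) ^ 2 * P * (1 + l) := by ring
        rw [this]
        exact mul_le_mul_of_nonneg_left (by linarith) (by positivity)
      have h6 : (1 + l) ^ 2 * P ≤ 54 / ε ^ 3 * N / l := by
        rw [le_div_iff₀ hl0]
        exact h5
      calc 1448 * ((1 + l) ^ 2 * P) ≤ 1448 * (54 / ε ^ 3 * N / l) := by linarith
        _ = _ := by ring
    calc _ ≤ 36480 / ε ^ 2 * (N / l) + 78192 / ε ^ 3 * (N / l) := by linarith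
      _ = _ := by ring

end Pool.Agent.Lib.MP_7ab245_nt.Cnt2
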