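import Pool.Agent.Lib.MP_7ab245_nt.Cnt2.Defs
import Pool.Agent.Lib.MP_7ab245_nt.Cnt.Split

/-!
CN2-Sums: from squarefree polynomials to all polynomials (abstract induction).

PROOF. As Cnt/Rec.lean (`all`), strong induction on `j ≤ N`. `j = 0`: nonzero constants are squarefree?? NOT all of them (4 is not squarefree in Z[X]): use that there are at most `2T + 1 ≤ 4T ≤ e^β` constants
of absolute value `≤ T` (Cnt/Rec.lean `rec_const`). `j ≥ 1`: `f = s h²` (Cnt/Split.lean `split`), `deg h = i ≤ j/2`, `deg s = j - 2i`, `MM s, MM h ≤ MM f ≤ T`; `f ↦ (s, h)` injective; for each `i` at most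
`exp (α (j-2i) + β) * exp (α i + (β + log (N+2)) (Nat.log 2 i + 1))` pairs (induction hypothesis for `i ≤ j/2 < j`), and `Nat.log 2 i + 1 ≤ Nat.log 2 j` if `1 ≤ i ≤ j/2`; for `i = 0` the
second factor is at most `exp β` (constants). Number of `i`: `≤ j/2 + 1 ≤ N + 2`. So in all `≤ (N+2) exp (α j + β + (β + log (N+2)) L)`, `L = Nat.log 2 j`, which is
`exp (α j + (β + log (N+2)) (L + 1))`; for `i = 0`: `exp (α j + β) exp β ≤` the same bound since ... (if `j ≥ 2` then `L ≥ 1`; if `j = 1` only `i = 0` occurs: `exp (α + 2β)`; hence the factor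
`2` in the statement: the claim to prove by induction is `≤ exp (α j + 2 (β + log (N+2)) (Nat.log 2 j + 1))`, which leaves room everywhere).
-/

set_option autoImplicit false

open Finset

namespace Pool.Agent.Lib.MP_7ab245_nt.Cnt2

open Pool.Agent.Lib.MP_7ab245_nt.LogVar Pool.Agent.Lib.MP_7ab245_nt.Cnt

private theorem sums_const (T : ℝ) (hT : 1 ≤ T) (F : Finset (Polynomial ℤ))
    (hF : ∀ f ∈ F, f ≠ 0 ∧ f.natDegree = 0 ∧ MM f ≤ T) :
    (F.card : ℝ) ≤ 4 * T := by
  classical
  have hsub : F ⊆ (Finset.Icc (-⌊T⌋) ⌊T⌋).image (fun c : ℤ => Polynomial.C c) := by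
    intro f hf
    obtain ⟨h0, hd, hM⟩ := hF f hf
    rw [Finset.mem_image]
    refine ⟨f.coeff 0, ?_, (Polynomial.eq_C_of_natDegree_eq_zero hd).symm⟩
    have h1 : f = Polynomial.C (f.coeff 0) := Polynomial.eq_C_of_natDegree_eq_zero hd
    have h2 : MM f = |((f.coeff 0 : ℤ) : ℝ)| := by
      unfold MM cx
      rw [h1, Polynomial.map_C, Polynomial.mahlerMeasure_const]
      simp
    rw [h2] at hM
    have h3 := abs_le.1 hM
    rw [Finset.mem_Icc]
    constructor
    · rw [neg_le]
      rw [Int.le_floor]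
      push_cast
      linarith [h3.1]
    · rw [Int.le_floor]
      exact h3.2
  have hcard := Finset.card_le_card hsub
  have h4 : ((Finset.Icc (-⌊T⌋) ⌊T⌋).image (fun c : ℤ => Polynomial.C c)).card ≤
      (Finset.Icc (-⌊T⌋) ⌊T⌋).card := Finset.card_image_le
  have hfl : (1 : ℤ) ≤ ⌊T⌋ := by
    rw [Int.le_floor]
    exact_mod_cast hT
  have h5 : ((Finset.Icc (-⌊T⌋) ⌊T⌋).card : ℤ) = 2 * ⌊T⌋ + 1 := by
    rw [Int.card_Icc]
    rw [Int.toNat_of_nonneg (by omega)]
    ring
  have h6 : (F.card : ℤ) ≤ 2 * ⌊T⌋ + 1 := by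
    rw [← h5]
    exact_mod_cast hcard.trans h4
  have h7 : (F.card : ℝ) ≤ 2 * (⌊T⌋ : ℝ) + 1 := by exact_mod_cast h6
  have h8 : (⌊T⌋ : ℝ) ≤ T := Int.floor_le T
  linarith

theorem sums (N : ℕ) (T α β : ℝ) (hT : 1 ≤ T) (hα : 0 ≤ α) (hβ : 4 * T ≤ Real.exp β)
    (hS : ∀ j ≤ N, ∀ F : Finset (Polynomial ℤ),
      (∀ f ∈ F, f.natDegree = j ∧ Squarefree f ∧ MM f ≤ T) → (F.card : ℝ) ≤ Real.exp (α * j + β)) :
    ∀ j ≤ N, ∀ F : Finset (Polynomial ℤ),
      (∀ f ∈ F, f ≠ 0 ∧ f.natDegree = j ∧ MM f ≤ T) →
        (F.card : ℝ) ≤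
          Real.exp (α * j + 2 * (β + Real.log (N + 2)) * ((Nat.log 2 j : ℕ) + 1)) := by
  classical
  have hβ0 : 0 ≤ β := by
    by_contra h
    push Not at h
    have h1 : Real.exp β ≤ Real.exp 0 := Real.exp_le_exp.2 h.le
    rw [Real.exp_zero] at h1
    linarith
  have hN2 : (0 : ℝ) < (N : ℝ) + 2 := by positivity
  have hlN : 0 ≤ Real.log ((N : ℝ) + 2) := by
    apply Real.log_nonneg
    have : (0 : ℝ) ≤ N := Nat.cast_nonneg N
    linarith
  set c := β + Real.log ((N : ℝ) + 2) with hc
  have hc0 : 0 ≤ c := by linarith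
  have hβc : β ≤ c := by linarith
  intro j
  induction j using Nat.strong_induction_on with
  | _ j ih =>
  intro hjN F hF
  have hT0 : (0 : ℝ) < T := by linarith
  rcases Nat.eq_zero_or_pos j with rfl | hn
  · have h1 := sums_const T hT F hF
    refine (h1.trans hβ).trans (Real.exp_le_exp.2 ?_)
    simp only [Nat.log_zero_right, Nat.cast_zero, mul_zero, zero_add, mul_one]
    linarith
  · -- choose the decomposition
    have hsp : ∀ f : Polynomial ℤ, ∃ p : Polynomial ℤ × Polynomial ℤ,
        f ≠ 0 → f = p.1 * p.2 ^ 2 ∧ Squarefree p.1 := by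
      intro f
      by_cases hf : f = 0
      · exact ⟨(0, 0), fun h => absurd hf h⟩
      · obtain ⟨s, h, h1, h2⟩ := split f hf
        exact ⟨(s, h), fun _ => ⟨h1, h2⟩⟩
    choose P hP using hsp
    -- facts for f in F
    have facts : ∀ f ∈ F, f = (P f).1 * (P f).2 ^ 2 ∧ Squarefree (P f).1 ∧ (P f).1 ≠ 0 ∧
        (P f).2 ≠ 0 ∧ (P f).1.natDegree + 2 * (P f).2.natDegree = j ∧ MM (P f).1 ≤ T ∧
        MM (P f).2 ≤ T := by
      intro f hf
      obtain ⟨h0, hd, hM⟩ := hF f hf
      obtain ⟨h1, h2⟩ := hP f h0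
      have hs0 : (P f).1 ≠ 0 := by
        intro h
        apply h0
        rw [h1, h, zero_mul]
      have hh0 : (P f).2 ≠ 0 := by
        intro h
        apply h0
        rw [h1, h]
        simp
      have hdeg : (P f).1.natDegree + 2 * (P f).2.natDegree = j := by
        rw [← hd]
        conv_rhs => rw [h1]
        rw [Polynomial.natDegree_mul hs0 (pow_ne_zero 2 hh0), Polynomial.natDegree_pow]
      have hMf : MM f = MM (P f).1 * (MM (P f).2 * MM (P f).2) := by
        conv_lhs => rw [h1]
        rw [MM_mul, sq, MM_mul]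
      have ha := one_le_MM _ hs0
      have hb := one_le_MM _ hh0
      refine ⟨h1, h2, hs0, hh0, hdeg, ?_, ?_⟩
      · have : MM (P f).1 ≤ MM (P f).1 * (MM (P f).2 * MM (P f).2) := by
          have : 1 ≤ MM (P f).2 * MM (P f).2 := by nlinarith
          nlinarith
        linarith
      · have : MM (P f).2 ≤ MM (P f).1 * (MM (P f).2 * MM (P f).2) := by
          have h3 : MM (P f).2 ≤ MM (P f).2 * MM (P f).2 := by nlinarith
          have h4 : MM (P f).2 * MM (P f).2 ≤ MM (P f).1 * (MM (P f).2 * MM (P f).2) := by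
            nlinarith
          linarith
        linarith
    set L := Nat.log 2 j with hL
    have hL0 : (0 : ℝ) ≤ (L : ℝ) := Nat.cast_nonneg L
    -- the bound for a given degree of `h`
    have key : ∀ i ∈ Finset.range (j / 2 + 1),
        (((F.filter fun f => (P f).2.natDegree = i).card : ℕ) : ℝ) ≤
          Real.exp (α * j + 2 * c * L + 2 * β) := by
      intro i hi
      rw [Finset.mem_range] at hi
      have hij : 2 * i ≤ j := by omega
      set Fj := F.filter fun f => (P f).2.natDegree = i with hFj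
      have hFjF : ∀ f ∈ Fj, f ∈ F := fun f hf => (Finset.mem_filter.1 hf).1
      have hinj : Fj.card ≤ ((Fj.image fun f => (P f).1) ×ˢ (Fj.image fun f => (P f).2)).card := by
        apply Finset.card_le_card_of_injOn (fun f => P f)
        · intro f hf
          rw [Finset.mem_coe] at hf
          simp only [Finset.coe_product, Set.mem_prod, Finset.mem_coe, Finset.mem_image]
          exact ⟨⟨f, hf, rfl⟩, ⟨f, hf, rfl⟩⟩
        · intro f hf g hg hfg
          rw [Finset.mem_coe] at hf hg
          have h1 := (facts f (hFjF f hf)).1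
          have h2 := (facts g (hFjF g hg)).1
          simp only at hfg
          rw [h1, h2, hfg]
      rw [Finset.card_product] at hinj
      have hA : (((Fj.image fun f => (P f).1).card : ℕ) : ℝ) ≤
          Real.exp (α * ((j - 2 * i : ℕ) : ℝ) + β) := by
        apply hS (j - 2 * i) (by omega)
        intro s hs
        obtain ⟨f, hf, rfl⟩ := Finset.mem_image.1 hs
        obtain ⟨-, h2, -, -, h5, h6, -⟩ := facts f (hFjF f hf)
        have hjf : (P f).2.natDegree = i := (Finset.mem_filter.1 hf).2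
        refine ⟨?_, h2, h6⟩
        rw [hjf] at h5
        omega
      have hB : (((Fj.image fun f => (P f).2).card : ℕ) : ℝ) ≤
          Real.exp (α * (i : ℝ) + 2 * c * L + β) := by
        have hFh : ∀ f ∈ (Fj.image fun f => (P f).2), f ≠ 0 ∧ f.natDegree = i ∧ MM f ≤ T := by
          intro s hs
          obtain ⟨f, hf, rfl⟩ := Finset.mem_image.1 hs
          obtain ⟨-, -, -, h4, -, -, h7⟩ := facts f (hFjF f hf)
          exact ⟨h4, (Finset.mem_filter.1 hf).2, h7⟩
        rcases Nat.eq_zero_or_pos i with rfl | hi0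
        · have h1 := sums_const T hT _ hFh
          refine (h1.trans hβ).trans (Real.exp_le_exp.2 ?_)
          simp only [Nat.cast_zero, mul_zero, zero_add]
          have : 0 ≤ 2 * c * L := by positivity
          linarith
        · have h1 := ih i (by omega) (by omega) _ hFh
          refine h1.trans (Real.exp_le_exp.2 ?_)
          have h2 : Nat.log 2 i + 1 ≤ L := by
            rw [hL]
            apply Nat.le_log_of_pow_le (by norm_num)
            rw [pow_succ]
            have := Nat.pow_log_le_self 2 (x := i) (by omega)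
            omega
          have h3 : ((Nat.log 2 i : ℕ) : ℝ) + 1 ≤ L := by exact_mod_cast h2
          have h4 : 2 * c * (((Nat.log 2 i : ℕ) : ℝ) + 1) ≤ 2 * c * L :=
            mul_le_mul_of_nonneg_left h3 (by positivity)
          linarith
      have h3 : ((Fj.card : ℕ) : ℝ) ≤ (((Fj.image fun f => (P f).1).card : ℕ) : ℝ) *
          (((Fj.image fun f => (P f).2).card : ℕ) : ℝ) := by exact_mod_cast hinj
      refine h3.trans ?_
      refine (mul_le_mul hA hB (by positivity) (by positivity)).trans ?_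
      rw [← Real.exp_add]
      apply Real.exp_le_exp.2
      have h4 : ((j - 2 * i : ℕ) : ℝ) = j - 2 * i := by
        rw [Nat.cast_sub hij]
        push_cast
        ring
      rw [h4]
      have h5 : 0 ≤ α * (i : ℝ) := by positivity
      nlinarith
    -- sum over i
    have hsum : (F.card : ℝ) ≤ ((j / 2 + 1 : ℕ) : ℝ) * Real.exp (α * j + 2 * c * L + 2 * β) := by
      have h1 : F.card = ∑ i ∈ Finset.range (j / 2 + 1),
          (F.filter fun f => (P f).2.natDegree = i).card := by
        apply Finset.card_eq_sum_card_fiberwise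
        intro f hf
        rw [Finset.mem_coe] at hf
        obtain ⟨-, -, -, -, h5, -, -⟩ := facts f hf
        simp only [Finset.coe_range, Set.mem_Iio]
        omega
      rw [h1]
      push_cast
      refine (Finset.sum_le_sum key).trans ?_
      rw [Finset.sum_const, Finset.card_range, nsmul_eq_mul]
      push_cast
      exact le_rfl
    refine hsum.trans ?_
    have hnum : ((j / 2 + 1 : ℕ) : ℝ) ≤ (N : ℝ) + 2 := by
      have : j / 2 + 1 ≤ N + 2 := by omega
      exact_mod_cast this
    calc ((j / 2 + 1 : ℕ) : ℝ) * Real.exp (α * j + 2 * c * L + 2 * β)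
        ≤ ((N : ℝ) + 2) * Real.exp (α * j + 2 * c * L + 2 * β) :=
          mul_le_mul_of_nonneg_right hnum (Real.exp_pos _).le
      _ = Real.exp (Real.log ((N : ℝ) + 2) + (α * j + 2 * c * L + 2 * β)) := by
          rw [Real.exp_add (Real.log ((N : ℝ) + 2)), Real.exp_log hN2]
      _ ≤ Real.exp (α * j + 2 * c * (L + 1)) := by
          apply Real.exp_le_exp.2
          rw [hc] at *
          nlinarith

end Pool.Agent.Lib.MP_7ab245_nt.Cnt2
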