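import Pool.Agent.Lib.MP_7ab245_nt.Cnt2.Sqf
import Pool.Agent.Lib.MP_7ab245_nt.Cnt2.Sums
import Pool.Agent.Lib.MP_7ab245_nt.Cnt2.Num

/-!
CN2-AllN: all polynomials of degree `n`.

PROOF. `num`, then `sums` with `N := n`; hypothesis `hS` from `sqf` (`4 T e^D = exp (log (4T) + D)`), conclusion for `j = n`.
-/

set_option autoImplicit false

open Finset

namespace Pool.Agent.Lib.MP_7ab245_nt.Cnt2

open Pool.Agent.Lib.MP_7ab245_nt.LogVar Pool.Agent.Lib.MP_7ab245_nt.Cnt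

theorem allN (ε : ℝ) (hε : 0 < ε) (hε2 : ε ≤ 1 / 2) : ∃ C : ℝ, 0 < C ∧
    ∀ (n : ℕ) (T : ℝ), 1 ≤ n → 1 ≤ T → T ≤ (n : ℝ) ^ (1 / 2 - ε) →
      ∀ F : Finset (Polynomial ℤ), (∀ f ∈ F, f ≠ 0 ∧ f.natDegree = n ∧ MM f ≤ T) →
        (F.card : ℝ) ≤ Real.exp (C * (n / Real.log (2 * n))) := by
  obtain ⟨C, hC, h⟩ := num ε hε hε2
  refine ⟨C, hC, ?_⟩
  intro n T hn hT hTn F hF
  obtain ⟨Λ, s, α, β, hΛ, hs, hα, hβ, h1, h2⟩ := h n T hn hT hTn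
  have hS : ∀ j ≤ n, ∀ F : Finset (Polynomial ℤ),
      (∀ f ∈ F, f.natDegree = j ∧ Squarefree f ∧ MM f ≤ T) →
        (F.card : ℝ) ≤ Real.exp (α * j + β) := by
    intro j hj F hF
    obtain ⟨M0, hM0, hE, hb⟩ := h1 j hj
    refine (sqf j M0 hM0 T Λ s hT hΛ hs hE F hF).trans ?_
    have hT4 : (0 : ℝ) < 4 * T := by linarith
    calc 4 * T * Real.exp (19 * M0 + (4 * j * Real.exp (-s) + 160 * s * T ^ 2 * Real.exp (4 * Λ)))
        = Real.exp (Real.log (4 * T) + (19 * M0 + (4 * j * Real.exp (-s) +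
            160 * s * T ^ 2 * Real.exp (4 * Λ)))) := by
          rw [Real.exp_add (Real.log (4 * T)), Real.exp_log hT4]
      _ ≤ Real.exp (α * j + β) := Real.exp_le_exp.2 hb
  exact (sums n T α β hT hα hβ hS n le_rfl F hF).trans (Real.exp_le_exp.2 (h2 n le_rfl))

end Pool.Agent.Lib.MP_7ab245_nt.Cnt2
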