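import Pool.Agent.Lib.MP_7ab245_nt.Cnt2.Pair
import Pool.Agent.Lib.MP_7ab245_nt.Cnt.Pred
import Pool.Agent.Lib.MP_7ab245_nt.Cnt.Code
import Pool.Agent.Lib.MP_7ab245_nt.Cnt.Gauss
import Pool.Agent.Lib.MP_7ab245_nt.Cnt.Cser

/-!
CN2-Cell: the number of polynomials of one cell.

PROOF (same pattern as Cnt/Fam.lean). `ι := F` (subtype), nonempty w.l.o.g.; `a j f := f.coeff j`. Choose for `f ∈ F` the series `q f` (pair, `N = n`), `t := ho (cx g)`,
`K f := (cx f) * t⁻¹`. `c i f := coeff i (q f)`, `p m f := if m = 0 then 0 else coeff m (K f)`.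
`coeff m (K f) = ∑_{i≤m} (f.coeff i) * coeff (m-i) t⁻¹` depends only on `a_j f`, `j ≤ m`: hypothesis `hp` of pred_main. `K f` has constant coefficient `a₀`.
`vv c p m f = coeff m (q f * K f) - a₀ * coeff m (q f)`, so `∑_{m≤n} ‖vv c p m f‖² ≤ 2 (MM f)² e^{2Λ} + 2 a₀² e^{2Λ} ≤ 4 T² e^{2Λ} =: V²` (`|a₀| ≤ MM f ≤ T`: mu_ge in Cnt/Cser.lean).
`pred_main a c p n (exp Λ) V`: `∑_{k≤n} ∑_f ‖p k f - ph k f‖² ≤ 10 e^{2Λ} V² |F| = 40 T² e^{4Λ} |F|`.
`K f * t = cx f` and `t` has constant coefficient 1: for `k ≥ 1` `a_k = coeff k (K f) + ∑_{j=1}^k t_j coeff (k-j) (K f)`; so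
`ah k f := Re (ph a c p k f + ∑_{j ∈ Icc 1 k} t_j coeff (k-j) (K f))` depends only on `a_j f`, `j < k` (ph_congr) and `|a_k - ah k f| ≤ ‖p k f - ph k f‖` for `k ≥ 1`.
`y k f := a k f - round (ah k f)`, `|y k f| ≤ 2 |a k f - ah k f|` (round_le, triangle inequality; see Cnt/Coding.lean), `y` determines `f` (strong induction, `a 0 f = a₀`, degree `n`).
`code n y (fun _ => s) (fun _ => 1 + 4 exp (-s))` (gs_le_exp): `log |F| ≤ n log (1 + 4 e^{-s}) + s * 4 * 40 T² e^{4Λ} ≤ 4 n e^{-s} + 160 s T² e^{4Λ}`.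
-/

set_option autoImplicit false

open Finset

namespace Pool.Agent.Lib.MP_7ab245_nt.Cnt2

open Pool.Agent.Lib.MP_7ab245_nt.LogVar Pool.Agent.Lib.MP_7ab245_nt.Cnt

/-- the quotient by the outer part of `g` -/
private noncomputable def KK (g f : Polynomial ℤ) : PowerSeries ℂ :=
  ((cx f : Polynomial ℂ) : PowerSeries ℂ) * (ho (cx g))⁻¹

private lemma coeff_cx (f : Polynomial ℤ) (m : ℕ) :
    PowerSeries.coeff m ((cx f : Polynomial ℂ) : PowerSeries ℂ) = ((f.coeff m : ℤ) : ℂ) := by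
  rw [Polynomial.coeff_coe]
  unfold cx
  rw [Polynomial.coeff_map]
  simp

private lemma coeff_KK (g f : Polynomial ℤ) (m : ℕ) : PowerSeries.coeff m (KK g f) =
    ∑ i ∈ range (m + 1), ((f.coeff i : ℤ) : ℂ) * PowerSeries.coeff (m - i) (ho (cx g))⁻¹ := by
  unfold KK
  rw [PowerSeries.coeff_mul, Finset.Nat.sum_antidiagonal_eq_sum_range_succ_mk]
  exact Finset.sum_congr rfl fun i _ => by rw [coeff_cx]

private lemma coeff_KK_congr {g f f' : Polynomial ℤ} {m : ℕ}
    (h : ∀ j ≤ m, f.coeff j = f'.coeff j) :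
    PowerSeries.coeff m (KK g f) = PowerSeries.coeff m (KK g f') := by
  rw [coeff_KK, coeff_KK]
  refine Finset.sum_congr rfl fun i hi => ?_
  rw [Finset.mem_range] at hi
  rw [h i (by omega)]

private lemma KK_mul (g f : Polynomial ℤ) :
    ho (cx g) * KK g f = ((cx f : Polynomial ℂ) : PowerSeries ℂ) := by
  unfold KK
  rw [mul_comm, mul_assoc, PowerSeries.inv_mul_cancel, mul_one]
  rw [ho_const]
  exact one_ne_zero

private lemma KK_rec (g f : Polynomial ℤ) (k : ℕ) : ((f.coeff k : ℤ) : ℂ) =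
    PowerSeries.coeff k (KK g f) + ∑ j ∈ Icc 1 k, PowerSeries.coeff j (ho (cx g)) *
      PowerSeries.coeff (k - j) (KK g f) := by
  have h := congrArg (PowerSeries.coeff k) (KK_mul g f)
  rw [coeff_cx, PowerSeries.coeff_mul, Finset.Nat.sum_antidiagonal_eq_sum_range_succ_mk,
    Finset.range_eq_Ico, Finset.sum_eq_sum_Ico_succ_bot (by omega)] at h
  have h0 : PowerSeries.coeff 0 (ho (cx g)) = 1 := by
    rw [PowerSeries.coeff_zero_eq_constantCoeff_apply, ho_const]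
  rw [← h]
  simp only [Nat.sub_zero, h0, one_mul]
  congr 1

private lemma KK_zero (g f : Polynomial ℤ) :
    PowerSeries.coeff 0 (KK g f) = ((f.coeff 0 : ℤ) : ℂ) := by
  have h := KK_rec g f 0
  simpa using h.symm

theorem cell (n : ℕ) (T Λ s : ℝ) (hT : 1 ≤ T) (hΛ : 0 < Λ) (hs : 1 ≤ s) (a₀ : ℤ) (ha₀ : a₀ ≠ 0)
    (g : Polynomial ℤ) (F : Finset (Polynomial ℤ))
    (hF : ∀ f ∈ F, f.natDegree = n ∧ f.coeff 0 = a₀ ∧ MM f ≤ T ∧
      ∑ m ∈ Icc 1 n, ‖QQ m f - QQ m g‖ ^ 2 / (m : ℝ) ^ 2 ≤ 2 * Λ ^ 2) :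
    (F.card : ℝ) ≤ Real.exp (4 * n * Real.exp (-s) + 160 * s * T ^ 2 * Real.exp (4 * Λ)) := by
  classical
  rcases F.eq_empty_or_nonempty with hF0 | ⟨f₁, hf₁⟩
  · rw [hF0, Finset.card_empty, Nat.cast_zero]
    positivity
  have hne : Nonempty F := ⟨⟨f₁, hf₁⟩⟩
  have hc0 : ∀ f : F, (f : Polynomial ℤ).coeff 0 ≠ 0 := fun f => by rw [(hF f f.2).2.1]; exact ha₀
  -- the multipliers
  have hq : ∀ f : F, ∃ q : PowerSeries ℂ, PowerSeries.constantCoeff q = 1 ∧
      pn q (n + 1) ≤ Real.exp (2 * Λ) ∧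
      pn (q * KK g (f : Polynomial ℤ)) (n + 1) ≤ (MM (f : Polynomial ℤ)) ^ 2 * Real.exp (2 * Λ) :=
    fun f => pair (f : Polynomial ℤ) g (hc0 f) n Λ hΛ (hF f f.2).2.2.2
  choose q hq1 hq2 hq3 using hq
  have ha1 : (0 : ℝ) < |(a₀ : ℝ)| := by
    rw [abs_pos]
    exact_mod_cast ha₀
  have haT : ∀ f : F, |(a₀ : ℝ)| ≤ MM (f : Polynomial ℤ) := by
    intro f
    have h := mu_ge (f : Polynomial ℤ) (hc0 f)
    rw [(hF f f.2).2.1, le_div_iff₀ ha1, one_mul] at h
    exact h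
  -- the data
  obtain ⟨a, ha⟩ : ∃ a : ℕ → F → ℤ, a = fun (j : ℕ) (f : F) => (f : Polynomial ℤ).coeff j := ⟨_, rfl⟩
  obtain ⟨c, hc⟩ : ∃ c : ℕ → F → ℂ, c = fun (i : ℕ) (f : F) => PowerSeries.coeff i (q f) := ⟨_, rfl⟩
  obtain ⟨p, hp⟩ : ∃ p : ℕ → F → ℂ, p = fun (i : ℕ) (f : F) =>
    if i = 0 then 0 else PowerSeries.coeff i (KK g (f : Polynomial ℤ)) := ⟨_, rfl⟩
  have hac : ∀ (m k : ℕ) (f f' : F), m < k → (∀ j < k, a j f = a j f') →
      PowerSeries.coeff m (KK g (f : Polynomial ℤ)) = PowerSeries.coeff m (KK g (f' : Polynomial ℤ)) := by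
    intro m k f f' hmk h
    refine coeff_KK_congr fun j hj => ?_
    have := h j (by omega)
    rw [ha] at this
    exact this
  have hpcongr : ∀ m k f g, m < k → (∀ j < k, a j f = a j g) → p m f = p m g := by
    intro m k f f' hmk h
    rw [hp]
    simp only
    rw [hac m k f f' hmk h]
  have hp0 : ∀ f, p 0 f = 0 := fun f => by rw [hp]; simp
  have hcc0 : ∀ f, c 0 f = 1 := fun f => by
    rw [hc]
    simp only
    rw [PowerSeries.coeff_zero_eq_constantCoeff_apply, hq1]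
  have hι0 : (0 : ℝ) < Fintype.card F := by exact_mod_cast Fintype.card_pos
  -- the convolution
  have hvv : ∀ m f, vv c p m f = PowerSeries.coeff m (q f * KK g (f : Polynomial ℤ)) -
      (a₀ : ℂ) * PowerSeries.coeff m (q f) := by
    intro m f
    unfold vv
    rw [PowerSeries.coeff_mul, Finset.Nat.sum_antidiagonal_eq_sum_range_succ_mk,
      Finset.sum_range_succ, Finset.sum_range_succ, Nat.sub_self, hp0, KK_zero, (hF f f.2).2.1]
    have h1 : ∑ x ∈ range m, c x f * p (m - x) f = ∑ k ∈ range m, PowerSeries.coeff k (q f) *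
        PowerSeries.coeff (m - k) (KK g (f : Polynomial ℤ)) := by
      refine Finset.sum_congr rfl fun i hi => ?_
      rw [Finset.mem_range] at hi
      rw [hc, hp]
      simp only
      rw [if_neg (by omega)]
    rw [h1]
    ring
  have hV : ∀ f, ∑ m ∈ range (n + 1), ‖vv c p m f‖ ^ 2 ≤ (2 * T * Real.exp Λ) ^ 2 := by
    intro f
    have hTT : MM (f : Polynomial ℤ) ≤ T := (hF f f.2).2.2.1
    have hTa : |(a₀ : ℝ)| ≤ T := (haT f).trans hTT
    have hM0 : 0 ≤ MM (f : Polynomial ℤ) := (abs_nonneg _).trans (haT f)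
    have e1 : ∀ m ∈ range (n + 1), ‖vv c p m f‖ ^ 2 ≤
        2 * ‖PowerSeries.coeff m (q f * KK g (f : Polynomial ℤ))‖ ^ 2 +
          2 * |(a₀ : ℝ)| ^ 2 * ‖PowerSeries.coeff m (q f)‖ ^ 2 := by
      intro m _
      rw [hvv]
      have h1 := norm_sub_le (PowerSeries.coeff m (q f * KK g (f : Polynomial ℤ)))
        ((a₀ : ℂ) * PowerSeries.coeff m (q f))
      rw [norm_mul, Complex.norm_intCast] at h1
      have h2 := pow_le_pow_left₀ (norm_nonneg _) h1 2
      nlinarith [sq_nonneg (‖PowerSeries.coeff m (q f * KK g (f : Polynomial ℤ))‖ -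
        |(a₀ : ℝ)| * ‖PowerSeries.coeff m (q f)‖)]
    refine (Finset.sum_le_sum e1).trans ?_
    rw [Finset.sum_add_distrib, ← Finset.mul_sum, ← Finset.mul_sum]
    have h2 : ∑ m ∈ range (n + 1), ‖PowerSeries.coeff m (q f)‖ ^ 2 ≤ Real.exp (2 * Λ) := hq2 f
    have h3 : ∑ m ∈ range (n + 1), ‖PowerSeries.coeff m (q f * KK g (f : Polynomial ℤ))‖ ^ 2 ≤
        (MM (f : Polynomial ℤ)) ^ 2 * Real.exp (2 * Λ) := hq3 f
    have h4 : (2 * T * Real.exp Λ) ^ 2 = 4 * T ^ 2 * Real.exp (2 * Λ) := by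
      rw [mul_pow, mul_pow, ← Real.exp_nat_mul]
      push_cast
      ring
    rw [h4]
    have h5 : |(a₀ : ℝ)| ^ 2 ≤ T ^ 2 := pow_le_pow_left₀ (abs_nonneg _) hTa 2
    have h6 : (MM (f : Polynomial ℤ)) ^ 2 ≤ T ^ 2 := pow_le_pow_left₀ hM0 hTT 2
    have h7 := Real.exp_pos (2 * Λ)
    have h8 : 2 * |(a₀ : ℝ)| ^ 2 * ∑ m ∈ range (n + 1), ‖PowerSeries.coeff m (q f)‖ ^ 2 ≤
        2 * T ^ 2 * Real.exp (2 * Λ) := by
      refine mul_le_mul (by linarith) h2 (Finset.sum_nonneg fun _ _ => by positivity) (by positivity)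
    have h9 : (MM (f : Polynomial ℤ)) ^ 2 * Real.exp (2 * Λ) ≤ T ^ 2 * Real.exp (2 * Λ) :=
      mul_le_mul_of_nonneg_right h6 h7.le
    linarith
  -- the predictor
  have hpred := pred_main a c p n (Real.exp Λ) (2 * T * Real.exp Λ)
    (Real.one_le_exp hΛ.le) hcc0 hp0 hpcongr (by
      intro f
      rw [hc, ← Real.exp_nat_mul]
      have h2 : ∑ m ∈ range (n + 1), ‖PowerSeries.coeff m (q f)‖ ^ 2 ≤ Real.exp (2 * Λ) := hq2 f
      exact_mod_cast h2) hV
  -- the predicted coefficient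
  obtain ⟨ah, hah⟩ : ∃ ah : ℕ → F → ℝ, ah = fun k f =>
      (ph a c p k f + ∑ j ∈ Icc 1 k, PowerSeries.coeff j (ho (cx g)) *
        PowerSeries.coeff (k - j) (KK g (f : Polynomial ℤ))).re := ⟨_, rfl⟩
  have hahc : ∀ k f g, (∀ j < k, a j f = a j g) → ah k f = ah k g := by
    intro k f f' h
    rw [hah]
    simp only
    rw [ph_congr a c p hp0 hpcongr h]
    have h1 : ∑ j ∈ Icc 1 k, PowerSeries.coeff j (ho (cx g)) *
        PowerSeries.coeff (k - j) (KK g (f : Polynomial ℤ)) = ∑ j ∈ Icc 1 k,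
        PowerSeries.coeff j (ho (cx g)) * PowerSeries.coeff (k - j) (KK g (f' : Polynomial ℤ)) := by
      refine Finset.sum_congr rfl fun j hj => ?_
      rw [Finset.mem_Icc] at hj
      rw [hac (k - j) k f f' (by omega) h]
    rw [h1]
  have herr : ∀ k : ℕ, 1 ≤ k → ∀ f, |(a k f : ℝ) - ah k f| ≤ ‖p k f - ph a c p k f‖ := by
    intro k hk f
    have h1 := KK_rec g (f : Polynomial ℤ) k
    have h2 : ((a k f : ℤ) : ℂ) = ((((f : Polynomial ℤ).coeff k : ℤ)) : ℂ) := by rw [ha]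
    have h3 : (((a k f : ℝ) - ah k f : ℝ)) = (p k f - ph a c p k f).re := by
      have h6 : ((a k f : ℤ) : ℝ) = ((a k f : ℤ) : ℂ).re := by simp
      rw [h6, h2, h1, hah, hp]
      simp only
      rw [if_neg (by omega)]
      simp only [Complex.add_re, Complex.sub_re]
      ring
    rw [h3]
    exact Complex.abs_re_le_norm _
  -- the code
  obtain ⟨y, hy⟩ : ∃ y : ℕ → F → ℤ, y = fun k f => a k f - round (ah k f) := ⟨_, rfl⟩
  have hyle : ∀ k : ℕ, 1 ≤ k → ∀ f, ((y k f : ℤ) : ℝ) ^ 2 ≤ 4 * ‖p k f - ph a c p k f‖ ^ 2 := by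
    intro k hk f
    have h1 := herr k hk f
    have h2 := round_le (ah k f) (a k f)
    have h3 : ((y k f : ℤ) : ℝ) = ((a k f : ℝ) - ah k f) + (ah k f - (round (ah k f) : ℝ)) := by
      rw [hy]
      push_cast
      ring
    have h4 : |((y k f : ℤ) : ℝ)| ≤ 2 * ‖p k f - ph a c p k f‖ := by
      rw [h3]
      refine (abs_add_le _ _).trans ?_
      rw [abs_sub_comm (ah k f) ((a k f : ℤ) : ℝ)] at h2
      linarith
    rw [← sq_abs]
    refine (pow_le_pow_left₀ (abs_nonneg _) h4 2).trans (le_of_eq ?_)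
    ring
  have hcode := code n y (fun _ => s) (fun _ => 1 + 4 * Real.exp (-s)) (by
      intro f f' h
      have h0 : ∀ k, k ≤ n → a k f = a k f' := by
        intro k
        induction k using Nat.strong_induction_on with
        | _ k ih =>
          intro hk
          rcases Nat.eq_zero_or_pos k with h0 | h0
          · rw [h0, ha]
            simp only
            rw [(hF f f.2).2.1, (hF f' f'.2).2.1]
          · have h1 := hahc k f f' fun j hj => ih j hj (by omega)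
            have h2 := h k (Finset.mem_Icc.2 ⟨h0, hk⟩)
            rw [hy] at h2
            simp only at h2
            rw [h1] at h2
            omega
      apply Subtype.ext
      apply Polynomial.ext
      intro j
      rcases Nat.lt_or_ge n j with hj | hj
      · rw [Polynomial.coeff_eq_zero_of_natDegree_lt (by rw [(hF f f.2).1]; exact hj),
          Polynomial.coeff_eq_zero_of_natDegree_lt (by rw [(hF f' f'.2).1]; exact hj)]
      · have := h0 j hj
        rw [ha] at this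
        exact this)
    (fun k _ => by positivity) (fun k _ B => gs_le_exp s hs B)
  have hE : ∑ k ∈ Icc 1 n, s * ∑ f, ((y k f : ℤ) : ℝ) ^ 2 ≤
      s * (160 * T ^ 2 * Real.exp (4 * Λ) * Fintype.card F) := by
    rw [← Finset.mul_sum]
    refine mul_le_mul_of_nonneg_left ?_ (by linarith)
    calc ∑ k ∈ Icc 1 n, ∑ f, ((y k f : ℤ) : ℝ) ^ 2
        ≤ ∑ k ∈ Icc 1 n, ∑ f, 4 * ‖p k f - ph a c p k f‖ ^ 2 :=
          Finset.sum_le_sum fun k hk => Finset.sum_le_sum fun f _ =>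
            hyle k (Finset.mem_Icc.1 hk).1 f
      _ = 4 * ∑ k ∈ Icc 1 n, ∑ f, ‖p k f - ph a c p k f‖ ^ 2 := by
          simp only [← Finset.mul_sum]
      _ ≤ 4 * ∑ k ∈ range (n + 1), ∑ f, ‖p k f - ph a c p k f‖ ^ 2 := by
          refine mul_le_mul_of_nonneg_left ?_ (by norm_num)
          apply Finset.sum_le_sum_of_subset_of_nonneg
          · intro k hk
            rw [Finset.mem_Icc] at hk
            rw [Finset.mem_range]
            omega
          · intro k _ _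
            exact Finset.sum_nonneg fun _ _ => by positivity
      _ ≤ 4 * (10 * Real.exp Λ ^ 2 * (2 * T * Real.exp Λ) ^ 2 * Fintype.card F) :=
          mul_le_mul_of_nonneg_left hpred (by norm_num)
      _ = 160 * T ^ 2 * Real.exp (4 * Λ) * Fintype.card F := by
          have : Real.exp (4 * Λ) = Real.exp Λ ^ 4 := by
            rw [← Real.exp_nat_mul]
            norm_num
          rw [this]
          ring
  have hlog : Real.log (1 + 4 * Real.exp (-s)) ≤ 4 * Real.exp (-s) := by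
    have := Real.log_le_sub_one_of_pos (show 0 < 1 + 4 * Real.exp (-s) by positivity)
    linarith
  have hfin : Real.log (Fintype.card F) ≤
      4 * n * Real.exp (-s) + 160 * s * T ^ 2 * Real.exp (4 * Λ) := by
    refine hcode.trans (add_le_add ?_ ?_)
    · rw [Finset.sum_const, Nat.card_Icc, nsmul_eq_mul, Nat.add_sub_cancel]
      have : (0 : ℝ) ≤ n := Nat.cast_nonneg _
      nlinarith
    · rw [div_le_iff₀ hι0]
      refine hE.trans (le_of_eq ?_)
      ring
  rw [Fintype.card_coe] at hfin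
  have hcpos : (0 : ℝ) < F.card := by
    exact_mod_cast Finset.card_pos.mpr ⟨f₁, hf₁⟩
  calc (F.card : ℝ) = Real.exp (Real.log F.card) := (Real.exp_log hcpos).symm
    _ ≤ _ := Real.exp_le_exp.mpr hfin

end Pool.Agent.Lib.MP_7ab245_nt.Cnt2
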