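import Pool.Agent.Lib.MP_7ab245_nt.Cnt2.Defs
import Pool.Agent.Lib.MP_7ab245_nt.Cnt.Code
import Pool.Agent.Lib.MP_7ab245_nt.Cnt.Gauss
import Pool.Agent.Lib.MP_7ab245_nt.Cnt.Abel

/-!
CN2-Cells: the number of cells.

PROOF. `h = Λ/√(2 M0)`, so `h² = Λ²/(2 M0)`. `Y f m = round (Re (x m f)/(m h))`, `Z f m = round (Im (x m f)/(m h))` for `m ∈ Icc 1 (min M0 n)`, `0` otherwise.
If `Y f = Y g`, `Z f = Z g`: for `m ≤ M0` `|Re|, |Im|` of `x m f - x m g` are `≤ m h`, so `∑_{m ≤ M0} ‖..‖²/m² ≤ 2 M0 h² = Λ²`; for `m > M0`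
`‖..‖²/m² ≤ (1/M0) ‖..‖²/m ≤ (2/M0) (‖x m f‖² + ‖x m g‖²)/m`, sum `≤ 4 E/M0 ≤ Λ²`.
Number of values of `Y` (a function `Fin M0 → ℤ` or a `Finset.image`): apply `code M0` to the type of the values (y k = k-th coordinate), `s k = k/M0`, `Z k = 1 + 4 √(M0/k)` (gs_le):
`y k² ≤ 2 ‖x k‖²/(k h)² + 1/2`, so `∑_{k≤M0} k y k² ≤ 2 E/h² + M0 (M0+1)/4 ≤ M0² + M0²/2` (`2E/h² = 4 E M0/Λ² ≤ M0²`), `∑ s k y k² ≤ (3/2) M0`;
`∑_{k≤M0} log (1 + 4 √(M0/k)) ≤ ∑ 4 √(M0/k) ≤ 8 M0` (sum_sqrt in Cnt/Abel.lean). So at most `exp (9.5 M0)` values; the same for `Z`; `κ` = numbering of the pairs `(Y f, Z f)`.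
-/

set_option autoImplicit false

open Finset

namespace Pool.Agent.Lib.MP_7ab245_nt.Cnt2

open Pool.Agent.Lib.MP_7ab245_nt.LogVar Pool.Agent.Lib.MP_7ab245_nt.Cnt

private theorem Cells_count {ι : Type} [Fintype ι] (M0 : ℕ) (hM0 : 1 ≤ M0) (y : ℕ → ι → ℤ)
    (hy : ∀ f, ∑ k ∈ Icc 1 M0, (k : ℝ) * (y k f : ℝ) ^ 2 ≤ 3 / 2 * (M0 : ℝ) ^ 2) :
    ∃ (K : ℕ) (κ : ι → Fin K), (K : ℝ) ≤ Real.exp (19 / 2 * M0) ∧
      ∀ f g, κ f = κ g → ∀ k ∈ Icc 1 M0, y k f = y k g := by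
  classical
  have hM : (1 : ℝ) ≤ M0 := by exact_mod_cast hM0
  have hMpos : (0 : ℝ) < M0 := by linarith
  let F : ι → (ℕ → ℤ) := fun f k => if k ∈ Icc 1 M0 then y k f else 0
  let S : Finset (ℕ → ℤ) := Finset.univ.image F
  have hFS : ∀ f, F f ∈ S := fun f => Finset.mem_image_of_mem _ (Finset.mem_univ f)
  let e : S ≃ Fin (Fintype.card S) := Fintype.equivFin S
  refine ⟨Fintype.card S, fun f => e ⟨F f, hFS f⟩, ?_, ?_⟩
  · by_cases hne : Nonempty S
    · have hc0 : (0 : ℝ) < (Fintype.card S : ℝ) := by exact_mod_cast Fintype.card_pos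
      have hcode := code (ι := S) M0 (fun k t => t.1 k) (fun k => (k : ℝ) / M0)
        (fun k => 1 + 4 / √((k : ℝ) / M0)) ?_ ?_ ?_
      · rw [← Real.exp_log hc0]
        apply Real.exp_le_exp.2
        refine hcode.trans ?_
        have h1 : ∑ k ∈ Icc 1 M0, Real.log (1 + 4 / √((k : ℝ) / M0)) ≤ 8 * M0 := by
          have h2 : ∀ k ∈ Icc 1 M0, Real.log (1 + 4 / √((k : ℝ) / M0)) ≤
              4 * √(M0 : ℝ) * (1 / √(k : ℝ)) := by
            intro k hk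
            have hk1 : 1 ≤ k := (Finset.mem_Icc.1 hk).1
            have hkR : (0 : ℝ) < k := by exact_mod_cast hk1
            have hpos : (0 : ℝ) < 4 / √((k : ℝ) / M0) := by positivity
            have h3 := Real.log_le_sub_one_of_pos (show (0 : ℝ) < 1 + 4 / √((k : ℝ) / M0) by linarith)
            have h4 : 4 / √((k : ℝ) / M0) = 4 * √(M0 : ℝ) * (1 / √(k : ℝ)) := by
              rw [Real.sqrt_div hkR.le]
              have : (0 : ℝ) < √(k : ℝ) := Real.sqrt_pos.2 hkR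
              have : (0 : ℝ) < √(M0 : ℝ) := Real.sqrt_pos.2 hMpos
              field_simp
            linarith
          refine (Finset.sum_le_sum h2).trans ?_
          rw [← Finset.mul_sum]
          have h5 := sum_sqrt M0 (M0 : ℝ) hM
          have h6 : (Icc 1 M0).filter (fun k : ℕ => (k : ℝ) ≤ (M0 : ℝ)) = Icc 1 M0 := by
            apply Finset.filter_true_of_mem
            intro k hk
            exact_mod_cast (Finset.mem_Icc.1 hk).2
          rw [h6] at h5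
          have h7 : 0 ≤ √(M0 : ℝ) := Real.sqrt_nonneg _
          have h8 : √(M0 : ℝ) * √(M0 : ℝ) = M0 := Real.mul_self_sqrt hMpos.le
          calc 4 * √(M0 : ℝ) * ∑ k ∈ Icc 1 M0, 1 / √(k : ℝ) ≤ 4 * √(M0 : ℝ) * (2 * √(M0 : ℝ)) := by
                gcongr
            _ = 8 * (√(M0 : ℝ) * √(M0 : ℝ)) := by ring
            _ = 8 * M0 := by rw [h8]
        have h2 : (∑ k ∈ Icc 1 M0, (k : ℝ) / M0 * ∑ t : S, ((t.1 k : ℤ) : ℝ) ^ 2) /
            (Fintype.card S : ℝ) ≤ 3 / 2 * M0 := by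
          rw [div_le_iff₀ hc0]
          have h3 : ∑ k ∈ Icc 1 M0, (k : ℝ) / M0 * ∑ t : S, ((t.1 k : ℤ) : ℝ) ^ 2 =
              ∑ t : S, (1 / (M0 : ℝ)) * ∑ k ∈ Icc 1 M0, (k : ℝ) * ((t.1 k : ℤ) : ℝ) ^ 2 := by
            simp only [Finset.mul_sum]
            rw [Finset.sum_comm]
            refine Finset.sum_congr rfl fun t _ => Finset.sum_congr rfl fun k _ => ?_
            ring
          rw [h3]
          have h4 : ∀ t : S, (1 / (M0 : ℝ)) * ∑ k ∈ Icc 1 M0, (k : ℝ) * ((t.1 k : ℤ) : ℝ) ^ 2 ≤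
              3 / 2 * M0 := by
            intro t
            obtain ⟨f, _, hf⟩ := Finset.mem_image.1 t.2
            have h5 : ∑ k ∈ Icc 1 M0, (k : ℝ) * ((t.1 k : ℤ) : ℝ) ^ 2 =
                ∑ k ∈ Icc 1 M0, (k : ℝ) * (y k f : ℝ) ^ 2 := by
              refine Finset.sum_congr rfl fun k hk => ?_
              rw [← hf]
              simp only [F, if_pos hk]
            rw [h5]
            calc (1 / (M0 : ℝ)) * ∑ k ∈ Icc 1 M0, (k : ℝ) * (y k f : ℝ) ^ 2 ≤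
                (1 / (M0 : ℝ)) * (3 / 2 * (M0 : ℝ) ^ 2) := by
                  gcongr
                  exact hy f
              _ = 3 / 2 * M0 := by field_simp
          refine (Finset.sum_le_sum fun t _ => h4 t).trans ?_
          rw [Finset.sum_const, Finset.card_univ, nsmul_eq_mul]
          exact le_of_eq (by ring)
        linarith
      · intro t t' htt
        obtain ⟨f, _, hf⟩ := Finset.mem_image.1 t.2
        obtain ⟨f', _, hf'⟩ := Finset.mem_image.1 t'.2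
        apply Subtype.ext
        funext k
        by_cases hk : k ∈ Icc 1 M0
        · exact htt k hk
        · rw [← hf, ← hf']
          simp only [F, if_neg hk]
      · intro k hk
        have hk1 : 1 ≤ k := (Finset.mem_Icc.1 hk).1
        have hkR : (0 : ℝ) < k := by exact_mod_cast hk1
        positivity
      · intro k hk B
        have hk1 : 1 ≤ k := (Finset.mem_Icc.1 hk).1
        have hkR : (0 : ℝ) < k := by exact_mod_cast hk1
        exact gs_le _ (by positivity) B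
    · rw [not_nonempty_iff] at hne
      have : Fintype.card S = 0 := Fintype.card_eq_zero
      rw [this]
      simpa using (Real.exp_pos _).le
  · intro f g hfg k hk
    have h1 : (⟨F f, hFS f⟩ : S) = ⟨F g, hFS g⟩ := e.injective hfg
    have h2 : F f = F g := congrArg Subtype.val h1
    have h3 := congrFun h2 k
    simpa only [F, if_pos hk] using h3

private theorem Cells_round (a : ℝ) : ((round a : ℤ) : ℝ) ^ 2 ≤ 2 * a ^ 2 + 1 / 2 := by
  have h1 := abs_le.1 (abs_sub_round a)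
  nlinarith [sq_nonneg (((round a : ℤ) : ℝ) - 2 * a), sq_nonneg ((round a : ℤ) : ℝ)]

private theorem Cells_close (a b c : ℝ) (hc : 0 < c) (h : round (a / c) = round (b / c)) :
    (a - b) ^ 2 ≤ c ^ 2 := by
  have h1 := abs_le.1 (abs_sub_round (a / c))
  have h2 := abs_le.1 (abs_sub_round (b / c))
  rw [h] at h1
  have h3 : a / c - b / c ≤ 1 := by linarith
  have h4 : -1 ≤ a / c - b / c := by linarith
  have h5 : a - b = (a / c - b / c) * c := by
    field_simp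
  rw [h5, mul_pow]
  have h6 : (a / c - b / c) ^ 2 ≤ 1 := by nlinarith
  nlinarith [sq_nonneg c]

private theorem Cells_energy {ι : Type} [Fintype ι] (n M0 : ℕ) (hM0 : 1 ≤ M0) (E Λ h : ℝ) (hΛ : 0 < Λ)
    (hh0 : 0 < h) (hh : h ^ 2 * (2 * M0) = Λ ^ 2)
    (hE : 4 * E ≤ M0 * Λ ^ 2) (x : ℕ → ι → ℂ) (r : ℕ → ι → ℝ) (hr : ∀ m f, r m f ^ 2 ≤ ‖x m f‖ ^ 2)
    (hx : ∀ f, ∑ m ∈ Icc 1 n, ‖x m f‖ ^ 2 / m ≤ E) (f : ι) :
    ∑ k ∈ Icc 1 M0, (k : ℝ) * ((if k ≤ n then round (r k f / (k * h)) else 0 : ℤ) : ℝ) ^ 2 ≤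
      3 / 2 * (M0 : ℝ) ^ 2 := by
  have hM : (1 : ℝ) ≤ M0 := by exact_mod_cast hM0
  have hMpos : (0 : ℝ) < M0 := by linarith
  have h1 : ∀ k ∈ Icc 1 M0, (k : ℝ) * ((if k ≤ n then round (r k f / (k * h)) else 0 : ℤ) : ℝ) ^ 2 ≤
      2 / h ^ 2 * (if k ≤ n then ‖x k f‖ ^ 2 / k else 0) + 1 / 2 * (k : ℝ) := by
    intro k hk
    have hk1 : 1 ≤ k := (Finset.mem_Icc.1 hk).1
    have hkR : (0 : ℝ) < k := by exact_mod_cast hk1
    split_ifs with hkn
    · have h2 := Cells_round (r k f / (k * h))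
      calc (k : ℝ) * ((round (r k f / (k * h)) : ℤ) : ℝ) ^ 2 ≤
            k * (2 * (r k f / (k * h)) ^ 2 + 1 / 2) := by gcongr
        _ = 2 / h ^ 2 * (r k f ^ 2 / k) + 1 / 2 * (k : ℝ) := by
            field_simp
        _ ≤ 2 / h ^ 2 * (‖x k f‖ ^ 2 / k) + 1 / 2 * (k : ℝ) := by
            have := hr k f
            gcongr
    · simp
  refine (Finset.sum_le_sum h1).trans ?_
  rw [Finset.sum_add_distrib, ← Finset.mul_sum, ← Finset.mul_sum]
  have h2 : ∑ k ∈ Icc 1 M0, (if k ≤ n then ‖x k f‖ ^ 2 / (k : ℝ) else 0) ≤ E := by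
    rw [← Finset.sum_filter]
    refine le_trans (Finset.sum_le_sum_of_subset_of_nonneg (t := Icc 1 n) ?_ ?_) (hx f)
    · intro k hk
      rw [Finset.mem_filter, Finset.mem_Icc] at hk
      exact Finset.mem_Icc.2 ⟨hk.1.1, hk.2⟩
    · intro k _ _
      positivity
  have h3 : ∀ N : ℕ, ∑ k ∈ Icc 1 N, (k : ℝ) = N * (N + 1) / 2 := by
    intro N
    induction N with
    | zero => simp
    | succ N ih =>
      rw [Finset.sum_Icc_succ_top (by omega), ih]
      push_cast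
      ring
  rw [h3 M0]
  have h4 : 2 / h ^ 2 * ∑ k ∈ Icc 1 M0, (if k ≤ n then ‖x k f‖ ^ 2 / (k : ℝ) else 0) ≤
      (M0 : ℝ) ^ 2 := by
    calc 2 / h ^ 2 * ∑ k ∈ Icc 1 M0, (if k ≤ n then ‖x k f‖ ^ 2 / (k : ℝ) else 0) ≤ 2 / h ^ 2 * E := by
          gcongr
      _ ≤ 2 / h ^ 2 * (M0 * Λ ^ 2 / 4) := by
          have : E ≤ M0 * Λ ^ 2 / 4 := by linarith
          gcongr
      _ = (M0 : ℝ) ^ 2 := by
          rw [← hh]
          field_simp
          ring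
  nlinarith

theorem cells {ι : Type} [Fintype ι] (n M0 : ℕ) (hM0 : 1 ≤ M0) (E Λ : ℝ) (hΛ : 0 < Λ)
    (hE : 4 * E ≤ M0 * Λ ^ 2) (x : ℕ → ι → ℂ) (hx : ∀ f, ∑ m ∈ Icc 1 n, ‖x m f‖ ^ 2 / m ≤ E) :
    ∃ (K : ℕ) (κ : ι → Fin K), (K : ℝ) ≤ Real.exp (19 * M0) ∧
      ∀ f g, κ f = κ g → ∑ m ∈ Icc 1 n, ‖x m f - x m g‖ ^ 2 / (m : ℝ) ^ 2 ≤ 2 * Λ ^ 2 := by
  have hM : (1 : ℝ) ≤ M0 := by exact_mod_cast hM0
  have hMpos : (0 : ℝ) < M0 := by linarith
  obtain ⟨h, hh0, hh⟩ : ∃ h : ℝ, 0 < h ∧ h ^ 2 * (2 * M0) = Λ ^ 2 := by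
    refine ⟨Λ / √(2 * M0), by positivity, ?_⟩
    rw [div_pow, Real.sq_sqrt (by positivity)]
    field_simp
  obtain ⟨K1, κ1, hK1, hκ1⟩ := Cells_count M0 hM0
    (fun k f => if k ≤ n then round ((x k f).re / (k * h)) else 0)
    (Cells_energy n M0 hM0 E Λ h hΛ hh0 hh hE x (fun m f => (x m f).re) (fun m f => by
      rw [← Complex.normSq_eq_norm_sq, Complex.normSq_apply]
      nlinarith [sq_nonneg (x m f).im]) hx)
  obtain ⟨K2, κ2, hK2, hκ2⟩ := Cells_count M0 hM0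
    (fun k f => if k ≤ n then round ((x k f).im / (k * h)) else 0)
    (Cells_energy n M0 hM0 E Λ h hΛ hh0 hh hE x (fun m f => (x m f).im) (fun m f => by
      rw [← Complex.normSq_eq_norm_sq, Complex.normSq_apply]
      nlinarith [sq_nonneg (x m f).re]) hx)
  refine ⟨K1 * K2, fun f => finProdFinEquiv (κ1 f, κ2 f), ?_, ?_⟩
  · push_cast
    have h1 : Real.exp (19 * M0) = Real.exp (19 / 2 * M0) * Real.exp (19 / 2 * M0) := by
      rw [← Real.exp_add]
      congr 1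
      ring
    rw [h1]
    exact mul_le_mul hK1 hK2 (Nat.cast_nonneg _) (Real.exp_pos _).le
  · intro f g hfg
    have h1 := finProdFinEquiv.injective hfg
    rw [Prod.mk.injEq] at h1
    have h2 := hκ1 f g h1.1
    have h3 := hκ2 f g h1.2
    have key : ∀ m ∈ Icc 1 n, ‖x m f - x m g‖ ^ 2 / (m : ℝ) ^ 2 ≤
        (if m ≤ M0 then Λ ^ 2 / M0 else 0) + 2 / M0 * (‖x m f‖ ^ 2 / m + ‖x m g‖ ^ 2 / m) := by
      intro m hm
      obtain ⟨hm1, hmn⟩ := Finset.mem_Icc.1 hm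
      have hmR : (0 : ℝ) < m := by exact_mod_cast hm1
      split_ifs with hmM
      · have hmem : m ∈ Icc 1 M0 := Finset.mem_Icc.2 ⟨hm1, hmM⟩
        have h4 := h2 m hmem
        have h5 := h3 m hmem
        simp only [if_pos hmn] at h4 h5
        have h6 := Cells_close _ _ _ (by positivity) h4
        have h7 := Cells_close _ _ _ (by positivity) h5
        have h8 : ‖x m f - x m g‖ ^ 2 ≤ 2 * (m * h) ^ 2 := by
          rw [← Complex.normSq_eq_norm_sq, Complex.normSq_apply, Complex.sub_re, Complex.sub_im]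
          nlinarith
        have h9 : ‖x m f - x m g‖ ^ 2 / (m : ℝ) ^ 2 ≤ Λ ^ 2 / M0 := by
          rw [div_le_div_iff₀ (by positivity) hMpos]
          calc ‖x m f - x m g‖ ^ 2 * M0 ≤ 2 * (m * h) ^ 2 * M0 := by gcongr
            _ = Λ ^ 2 * (m : ℝ) ^ 2 := by rw [← hh]; ring
        have h10 : 0 ≤ 2 / (M0 : ℝ) * (‖x m f‖ ^ 2 / m + ‖x m g‖ ^ 2 / m) := by positivity
        linarith
      · rw [not_le] at hmM
        have hmM' : (M0 : ℝ) ≤ m := by exact_mod_cast hmM.le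
        have h4 : ‖x m f - x m g‖ ^ 2 ≤ 2 * (‖x m f‖ ^ 2 + ‖x m g‖ ^ 2) := by
          have h5 := norm_sub_le (x m f) (x m g)
          have h6 := norm_nonneg (x m f - x m g)
          nlinarith [sq_nonneg (‖x m f‖ - ‖x m g‖)]
        calc ‖x m f - x m g‖ ^ 2 / (m : ℝ) ^ 2 ≤ 2 * (‖x m f‖ ^ 2 + ‖x m g‖ ^ 2) / (m : ℝ) ^ 2 := by
              gcongr
          _ ≤ 2 * (‖x m f‖ ^ 2 + ‖x m g‖ ^ 2) / (M0 * m) := by
              rw [pow_two (m : ℝ)]
              gcongr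
          _ = 0 + 2 / M0 * (‖x m f‖ ^ 2 / m + ‖x m g‖ ^ 2 / m) := by
              field_simp
              ring
    refine (Finset.sum_le_sum key).trans ?_
    rw [Finset.sum_add_distrib, ← Finset.mul_sum, Finset.sum_add_distrib, ← Finset.sum_filter,
      Finset.sum_const, nsmul_eq_mul]
    have h4 : ((((Icc 1 n).filter (fun m => m ≤ M0)).card : ℕ) : ℝ) ≤ M0 := by
      have : ((Icc 1 n).filter (fun m => m ≤ M0)) ⊆ Icc 1 M0 := by
        intro m hm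
        rw [Finset.mem_filter, Finset.mem_Icc] at hm
        exact Finset.mem_Icc.2 ⟨hm.1.1, hm.2⟩
      have h5 := Finset.card_le_card this
      rw [Nat.card_Icc] at h5
      exact_mod_cast h5
    have h5 : ((((Icc 1 n).filter (fun m => m ≤ M0)).card : ℕ) : ℝ) * (Λ ^ 2 / M0) ≤ Λ ^ 2 := by
      calc _ ≤ (M0 : ℝ) * (Λ ^ 2 / M0) := by gcongr
        _ = Λ ^ 2 := by field_simp
    have h6 : 2 / (M0 : ℝ) * (∑ m ∈ Icc 1 n, ‖x m f‖ ^ 2 / (m : ℝ) + ∑ m ∈ Icc 1 n, ‖x m g‖ ^ 2 / (m : ℝ)) ≤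
        Λ ^ 2 := by
      calc _ ≤ 2 / (M0 : ℝ) * (M0 * Λ ^ 2 / 2) := by
            have := hx f
            have := hx g
            gcongr
            linarith
        _ = Λ ^ 2 := by field_simp
    linarith

end Pool.Agent.Lib.MP_7ab245_nt.Cnt2
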