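import Mathlib
import Pool.Agent.Lib.MP_7ab245_nt.Cnt.Defs

/-!
Counting integer polynomials of Mahler measure up to `n ^ (1/2 - ε)`: definitions. Do not edit.
Paper proof: `/team-store/CN2_paper.md`.
-/

set_option autoImplicit false

open Finset

namespace Pool.Agent.Lib.MP_7ab245_nt.Cnt2

open Pool.Agent.Lib.MP_7ab245_nt.LogVar Pool.Agent.Lib.MP_7ab245_nt.Cnt

/-- the truncated form `∑_{m < R} (w h)_m conj (h_m)` -/
noncomputable def ac (w h : PowerSeries ℂ) (R : ℕ) : ℂ :=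
  ∑ m ∈ range R, PowerSeries.coeff m (w * h) * (starRingEnd ℂ) (PowerSeries.coeff m h)

/-- accretive power series -/
def Acc (w : PowerSeries ℂ) : Prop := ∀ (h : PowerSeries ℂ) (R : ℕ), 0 ≤ (ac w h R).re

end Pool.Agent.Lib.MP_7ab245_nt.Cnt2
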