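import Pool.Agent.Lib.MP_7ab245_nt.Cnt2.Defs

/-!
CN2-Ex: power series with a given logarithmic derivative, and the recursion of the coefficients.

PROOF. `ld u = X * derivative u * u⁻¹` (LogVar/LogDer.lean). `ld_rec`: `ld G * G = X * derivative ℂ G` (as `constantCoeff G ≠ 0`); the `m`-th coefficient
of the right side is `m G_m` (PowerSeries.coeff_succ_X_mul, PowerSeries.coeff_derivative); `coeff 0 (ld G) = 0`. The sum is the `m`-th coefficient of the product
(PowerSeries.coeff_mul, Finset.Nat.sum_antidiagonal_eq_sum_range_succ_mk; the summand with `i = 0` vanishes).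
`exists_ld`: define the coefficients recursively, `e 0 = 1`, `e (m+1) = (∑ j : Fin (m+1), l (j+1) * e (m - j)) / (m+1)` (well-founded recursion), `G = PowerSeries.mk e`; then
`X * derivative ℂ G = mk l' * G`, `l' 0 = 0`, `l' m = l m` for `m ≥ 1`, hence `ld G = mk l'`.
`ld_unique`: strong induction on `m` with ld_rec.
-/

set_option autoImplicit false

open Finset

namespace Pool.Agent.Lib.MP_7ab245_nt.Cnt2

open Pool.Agent.Lib.MP_7ab245_nt.LogVar Pool.Agent.Lib.MP_7ab245_nt.Cnt

theorem ld_rec (G : PowerSeries ℂ) (hG : PowerSeries.constantCoeff G ≠ 0) (m : ℕ) :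
    (m : ℂ) * PowerSeries.coeff m G =
      ∑ i ∈ Icc 1 m, PowerSeries.coeff i (ld G) * PowerSeries.coeff (m - i) G := by
  have h : ld G * G = PowerSeries.X * PowerSeries.derivative ℂ G := by
    unfold ld
    rw [mul_assoc, PowerSeries.inv_mul_cancel _ hG, mul_one]
  have h0 : PowerSeries.coeff 0 (ld G) = 0 := by
    unfold ld
    rw [mul_assoc, PowerSeries.coeff_zero_X_mul]
  have hL : PowerSeries.coeff m (PowerSeries.X * PowerSeries.derivative ℂ G) =
      (m : ℂ) * PowerSeries.coeff m G := by
    rcases m with _ | n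
    · rw [PowerSeries.coeff_zero_X_mul]
      simp
    · rw [PowerSeries.coeff_succ_X_mul, PowerSeries.coeff_derivative]
      push_cast
      ring
  rw [← hL, ← h, PowerSeries.coeff_mul, Finset.Nat.sum_antidiagonal_eq_sum_range_succ_mk]
  symm
  refine Finset.sum_subset (fun i hi => ?_) (fun i _ hi' => ?_)
  · rw [Finset.mem_Icc] at hi
    rw [Finset.mem_range]
    omega
  · rename_i hi
    rw [Finset.mem_range] at hi
    rw [Finset.mem_Icc] at hi'
    have : i = 0 := by omega
    rw [this, h0, zero_mul]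

/-- the coefficients of the series with given logarithmic derivative -/
private noncomputable def ec (l : ℕ → ℂ) : ℕ → ℂ
  | 0 => 1
  | (m + 1) => (∑ j : Fin (m + 1), l (j + 1) * ec l (m - j)) / ((m : ℂ) + 1)
  decreasing_by omega

private lemma ec_zero (l : ℕ → ℂ) : ec l 0 = 1 := by
  rw [ec]

private lemma ec_succ (l : ℕ → ℂ) (m : ℕ) :
    ec l (m + 1) * ((m : ℂ) + 1) = ∑ j ∈ range (m + 1), l (j + 1) * ec l (m - j) := by
  rw [ec, div_mul_cancel₀ _ (Nat.cast_add_one_ne_zero m),
    Finset.sum_range (fun j => l (j + 1) * ec l (m - j))]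

theorem exists_ld (l : ℕ → ℂ) : ∃ G : PowerSeries ℂ, PowerSeries.constantCoeff G = 1 ∧
    ∀ m, 1 ≤ m → PowerSeries.coeff m (ld G) = l m := by
  have hc : PowerSeries.constantCoeff (PowerSeries.mk (ec l)) = 1 := by
    rw [← PowerSeries.coeff_zero_eq_constantCoeff_apply, PowerSeries.coeff_mk, ec_zero]
  refine ⟨PowerSeries.mk (ec l), hc, fun m hm => ?_⟩
  have h1 : PowerSeries.X * PowerSeries.derivative ℂ (PowerSeries.mk (ec l)) =
      PowerSeries.mk (fun m => if m = 0 then 0 else l m) * PowerSeries.mk (ec l) := by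
    ext n
    rcases n with _ | n
    · rw [PowerSeries.coeff_zero_X_mul, PowerSeries.coeff_mul,
        Finset.Nat.sum_antidiagonal_eq_sum_range_succ_mk, Finset.sum_range_one,
        PowerSeries.coeff_mk, if_pos rfl, zero_mul]
    · rw [PowerSeries.coeff_succ_X_mul, PowerSeries.coeff_derivative, PowerSeries.coeff_mk,
        ec_succ, PowerSeries.coeff_mul, Finset.Nat.sum_antidiagonal_eq_sum_range_succ_mk]
      symm
      rw [Finset.sum_range_succ', PowerSeries.coeff_mk, if_pos rfl, zero_mul, add_zero]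
      refine Finset.sum_congr rfl fun j _ => ?_
      rw [PowerSeries.coeff_mk, PowerSeries.coeff_mk, if_neg (Nat.succ_ne_zero j),
        Nat.add_sub_add_right]
  have h2 : ld (PowerSeries.mk (ec l)) = PowerSeries.mk (fun m => if m = 0 then 0 else l m) := by
    unfold ld
    rw [h1, mul_assoc, PowerSeries.mul_inv_cancel _ (by rw [hc]; exact one_ne_zero), mul_one]
  rw [h2, PowerSeries.coeff_mk, if_neg (by omega)]

end Pool.Agent.Lib.MP_7ab245_nt.Cnt2
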