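import Pool.Agent.Lib.MP_7ab245_nt.Cnt2.AllN
import Pool.Agent.Lib.MP_7ab245_nt.Cnt.Uni

/-!
CN2-Fin2: the final bound.

PROOF. As Cnt/Uni.lean (`uni_pos`, `uni`) with `allN` for degree `n r` in place of `all'`: products of `r` distinct irreducible polynomials with positive leading coefficient, `choose_root`:
`|G| ≤ 2 r exp (C (n r/log (2 n r))/r)`; signs: factor 2. Together with `uni` (constant 32000): the minimum of the two exponents (`C := max 32000 C'`).
For `ε > 1/2` there is nothing to prove unless `T ≤ (n r)^(1/2-ε) ≤ 1`, then use `ε = 1/2` (`T ≤ 1 = (nr)^0`).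
-/

set_option autoImplicit false

open Finset

namespace Pool.Agent.Lib.MP_7ab245_nt.Cnt2

open Pool.Agent.Lib.MP_7ab245_nt.LogVar Pool.Agent.Lib.MP_7ab245_nt.Cnt

private theorem gen_pos (n r : ℕ) (T E : ℝ) (hr : 1 ≤ r) (hT : 1 ≤ T) (hE : 0 ≤ E)
    (hall : ∀ P : Finset (Polynomial ℤ),
      (∀ f ∈ P, f ≠ 0 ∧ f.natDegree = n * r ∧ MM f ≤ T) → (P.card : ℝ) ≤ Real.exp E)
    (G : Finset (Polynomial ℤ))
    (hG : ∀ f ∈ G, f.natDegree = n ∧ MM f ^ r ≤ T ∧ Irreducible f)
    (hpos : ∀ f ∈ G, 0 < f.leadingCoeff) :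
    (G.card : ℝ) ≤ 2 * r * Real.exp (E / r) := by
  classical
  have hr0 : (0 : ℝ) < r := by exact_mod_cast hr
  set P : Finset (Polynomial ℤ) := (powersetCard r G).image (fun S => ∏ f ∈ S, f) with hP
  have hcard : P.card = G.card.choose r := by
    rw [hP, Finset.card_image_of_injOn, Finset.card_powersetCard]
    intro S hS S' hS' h
    rw [Finset.mem_coe, Finset.mem_powersetCard] at hS hS'
    exact prod_inj G (fun f hf => ⟨(hG f hf).2.2, hpos f hf⟩) S S' hS.1 hS'.1 h
  have hroot : ∀ f ∈ G, MM f ≤ T ^ (1 / (r : ℝ)) := by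
    intro f hf
    have h1 := (hG f hf).2.1
    have h2 : 0 ≤ MM f := Polynomial.mahlerMeasure_nonneg _
    calc MM f = (MM f ^ r) ^ (1 / (r : ℝ)) := by
          rw [one_div, Real.pow_rpow_inv_natCast h2 (by omega)]
      _ ≤ T ^ (1 / (r : ℝ)) := by
          apply Real.rpow_le_rpow (by positivity) h1 (by positivity)
  have hB1 : 1 ≤ T ^ (1 / (r : ℝ)) := Real.one_le_rpow hT (by positivity)
  have hall := hall P (by
    intro f hf
    rw [hP, Finset.mem_image] at hf
    obtain ⟨S, hS, rfl⟩ := hf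
    rw [Finset.mem_powersetCard] at hS
    have h2 := deg_prod S n (fun f hf => ⟨(hG f (hS.1 hf)).2.2.ne_zero, (hG f (hS.1 hf)).1⟩)
    rw [hS.2] at h2
    refine ⟨h2.1, h2.2, ?_⟩
    have h3 := mm_prod S _ hB1 (fun f hf => hroot f (hS.1 hf))
    rw [hS.2] at h3
    refine h3.trans_eq ?_
    rw [one_div, Real.rpow_inv_natCast_pow (by linarith) (by omega)])
  rw [hcard] at hall
  exact choose_root G.card r hr _ hE hall

private theorem gen (n r : ℕ) (T E : ℝ) (hn : 1 ≤ n) (hr : 1 ≤ r) (hT : 1 ≤ T) (hE : 0 ≤ E)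
    (hall : ∀ P : Finset (Polynomial ℤ),
      (∀ f ∈ P, f ≠ 0 ∧ f.natDegree = n * r ∧ MM f ≤ T) → (P.card : ℝ) ≤ Real.exp E)
    (F : Finset (Polynomial ℤ))
    (hF : ∀ f ∈ F, f.natDegree = n ∧ MM f ^ r ≤ T ∧ (r = 1 ∨ Irreducible f)) :
    (F.card : ℝ) ≤ 4 * r * Real.exp (E / r) := by
  classical
  have hr0 : (1 : ℝ) ≤ r := by exact_mod_cast hr
  rcases eq_or_ne r 1 with rfl | hr1
  · have h1 := hall F (by
      intro f hf
      obtain ⟨h1, h2, _⟩ := hF f hf
      refine ⟨?_, by rw [h1, Nat.mul_one], by simpa using h2⟩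
      rintro rfl
      rw [Polynomial.natDegree_zero] at h1
      omega)
    rw [Nat.cast_one, div_one, mul_one]
    have h2 : 0 ≤ Real.exp E := (Real.exp_pos _).le
    linarith
  · set H : Finset (Polynomial ℤ) := F ∪ F.image (fun f => -f) with hH
    have hHF : ∀ f ∈ H, f.natDegree = n ∧ MM f ^ r ≤ T ∧ Irreducible f := by
      intro f hf
      rw [hH, Finset.mem_union, Finset.mem_image] at hf
      rcases hf with hf | ⟨g, hg, rfl⟩
      · obtain ⟨h2, h3, h4⟩ := hF f hf
        exact ⟨h2, h3, h4.resolve_left hr1⟩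
      · obtain ⟨h2, h3, h4⟩ := hF g hg
        exact ⟨by rw [Polynomial.natDegree_neg]; exact h2, by rw [MM_neg]; exact h3,
          (Associated.neg_left (Associated.refl g)).irreducible_iff.mpr (h4.resolve_left hr1)⟩
    set G : Finset (Polynomial ℤ) := H.filter (fun f => 0 < f.leadingCoeff) with hGdef
    have hG := gen_pos n r T E hr hT hE hall G (fun f hf => hHF f (Finset.mem_filter.mp hf).1)
      (fun f hf => (Finset.mem_filter.mp hf).2)
    have hsub : F ⊆ G ∪ G.image (fun f => -f) := by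
      intro f hf
      rw [Finset.mem_union]
      have hne : f.leadingCoeff ≠ 0 :=
        Polynomial.leadingCoeff_ne_zero.mpr ((hF f hf).2.2.resolve_left hr1).ne_zero
      rcases lt_or_gt_of_ne hne with h | h
      · right
        rw [Finset.mem_image]
        refine ⟨-f, ?_, neg_neg f⟩
        rw [hGdef, Finset.mem_filter]
        refine ⟨?_, by rw [Polynomial.leadingCoeff_neg]; linarith⟩
        rw [hH, Finset.mem_union]
        exact Or.inr (Finset.mem_image_of_mem _ hf)
      · left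
        rw [hGdef, Finset.mem_filter]
        exact ⟨by rw [hH, Finset.mem_union]; exact Or.inl hf, h⟩
    have hcard : (F.card : ℝ) ≤ 2 * G.card := by
      have h2 : F.card ≤ G.card + G.card := by
        calc F.card ≤ (G ∪ G.image (fun f => -f)).card := Finset.card_le_card hsub
          _ ≤ G.card + (G.image (fun f => -f)).card := Finset.card_union_le _ _
          _ ≤ G.card + G.card := Nat.add_le_add_left Finset.card_image_le _
      have : (F.card : ℝ) ≤ G.card + G.card := by exact_mod_cast h2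
      linarith
    linarith

theorem fin2 (ε : ℝ) (hε : 0 < ε) : ∃ C : ℝ, 0 < C ∧
    ∀ (n r : ℕ) (T : ℝ), 1 ≤ n → 1 ≤ r → 1 ≤ T → T ≤ ((n : ℝ) * r) ^ (1 / 2 - ε) →
      ∀ F : Finset (Polynomial ℤ),
        (∀ f ∈ F, f.natDegree = n ∧ MM f ^ r ≤ T ∧ (r = 1 ∨ Irreducible f)) →
        (F.card : ℝ) ≤ 4 * r * Real.exp (C * min (T ^ 2 * √(n * Real.log (2 * n * r * T) / r))
          (n / Real.log (2 * n * r))) := by
  obtain ⟨C, hC, hall⟩ := allN (min ε (1 / 2)) (lt_min hε (by norm_num)) (min_le_right _ _)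
  refine ⟨max 32000 C, lt_max_of_lt_right hC, ?_⟩
  intro n r T hn hr hT hTn F hF
  have hn0 : (1 : ℝ) ≤ n := by exact_mod_cast hn
  have hr0 : (1 : ℝ) ≤ r := by exact_mod_cast hr
  have hnr : (1 : ℝ) ≤ (n : ℝ) * r := by nlinarith
  have hlog : 0 ≤ Real.log (2 * n * r) := Real.log_nonneg (by nlinarith)
  have hA := uni n r T hn hr hT F hF
  have hT' : T ≤ ((n * r : ℕ) : ℝ) ^ (1 / 2 - min ε (1 / 2)) := by
    push_cast
    refine hTn.trans (Real.rpow_le_rpow_of_exponent_le hnr ?_)
    have := min_le_left ε (1 / 2)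
    linarith
  have hB := gen n r T (C * (((n * r : ℕ) : ℝ) / Real.log (2 * ((n * r : ℕ) : ℝ)))) hn hr hT
    (by
      push_cast
      rw [← mul_assoc]
      positivity)
    (hall (n * r) T (Nat.mul_pos hn hr) hT hT') F hF
  have hE : C * (((n * r : ℕ) : ℝ) / Real.log (2 * ((n * r : ℕ) : ℝ))) / r
      = C * (n / Real.log (2 * n * r)) := by
    push_cast
    rw [← mul_assoc 2 (n : ℝ) (r : ℝ)]
    have : (r : ℝ) ≠ 0 := by positivity
    field_simp
  rw [hE] at hB
  have hA0 : 0 ≤ T ^ 2 * √(n * Real.log (2 * n * r * T) / r) := by positivity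
  have hB0 : 0 ≤ (n : ℝ) / Real.log (2 * n * r) := by positivity
  rcases min_choice (T ^ 2 * √(n * Real.log (2 * n * r * T) / r))
    ((n : ℝ) / Real.log (2 * n * r)) with h | h
  · rw [h]
    refine hA.trans ?_
    gcongr
    exact le_max_left _ _
  · rw [h]
    refine hB.trans ?_
    gcongr
    exact le_max_right _ _

end Pool.Agent.Lib.MP_7ab245_nt.Cnt2
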