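import Pool.Agent.Lib.MP_7ab245_nt.Cnt2.Res
import Pool.Agent.Lib.MP_7ab245_nt.Cnt2.Ex

/-!
CN2-Lim: `exp (-w)` is a prefix contraction for accretive `w`.

PROOF. For `k : ℕ` let `t = 1/(k+1)`, `s_k = 1 + C t * w`, `r_k = s_k⁻¹` (a prefix contraction, pc_res), `G_k = r_k ^ (k+1)` (a prefix contraction: PC_mul, PC_one).
(1) `coeff m r_k → (if m = 0 then 1 else 0)` as `k → ∞`: `r_k = 1 - C t * (w * r_k)`, `|coeff i r_k|² ≤ pn (r_k * 1) (i+1) ≤ 1`, so
`|coeff m r_k - coeff m 1| ≤ t ∑_{i ≤ m} |w_i| → 0`.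
(2) `X * derivative G_k = - (X * derivative w) * r_k * G_k`, i.e. `ld G_k = -(X * derivative w) * r_k` (ld_pow, ld of the inverse: `ld (s * s⁻¹) = ld 1 = 0` with ld_mul,
`ld s_k = C t * (X * derivative w) * r_k`, `(k+1) t = 1`). So `coeff m (ld G_k) → - m w_m` for every `m ≥ 1` by (1).
(3) `coeff 0 G_k = (1 + w0 t)^(-(k+1)) → exp (-w0)` (Real.tendsto_one_add_div_pow_exp or Complex version; `1 + w0/(k+1) > 0`).
(4) By strong induction on `m ≤ N`: `coeff m G_k → exp (-w0) * coeff m G` (ld_rec for `G_k` and for `G`; divide by `m`).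
(5) For `R ≤ N + 1`: `pn (G_k * h) R ≤ pn h R`; `coeff m (G_k * h)`, `m < R`, is a finite sum of `coeff i G_k * coeff (m - i) h`, `i ≤ m ≤ N`, so it tends to
`exp (-w0) * coeff m (G * h)`; the limit of the inequality is `exp (-2 w0) pn (G * h) R ≤ pn h R`.
-/

set_option autoImplicit false

open Finset

namespace Pool.Agent.Lib.MP_7ab245_nt.Cnt2

open Pool.Agent.Lib.MP_7ab245_nt.LogVar Pool.Agent.Lib.MP_7ab245_nt.Cnt

private lemma lim_PC_pow {b : PowerSeries ℂ} (hb : PC b) (n : ℕ) : PC (b ^ n) := by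
  induction n with
  | zero => rw [pow_zero]; exact PC_one
  | succ n ih => rw [pow_succ]; exact PC_mul ih hb

private lemma lim_pn_one (R : ℕ) : pn (1 : PowerSeries ℂ) (R + 1) = 1 := by
  unfold pn
  rw [sum_range_succ']
  simp [PowerSeries.coeff_one]

private lemma lim_coeff_le {b : PowerSeries ℂ} (hb : PC b) (i : ℕ) :
    ‖PowerSeries.coeff i b‖ ≤ 1 := by
  have h := hb 1 (i + 1)
  rw [mul_one, lim_pn_one] at h
  have h2 : ‖PowerSeries.coeff i b‖ ^ 2 ≤ pn b (i + 1) := by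
    unfold pn
    exact single_le_sum (f := fun m => ‖PowerSeries.coeff m b‖ ^ 2)
      (fun m _ => sq_nonneg _) (mem_range.2 (Nat.lt_succ_self i))
  have h3 : ‖PowerSeries.coeff i b‖ ^ 2 ≤ 1 := h2.trans h
  nlinarith [norm_nonneg (PowerSeries.coeff i b)]

/-- convergence of the coefficients of a product -/
private lemma lim_mul {f g : ℕ → PowerSeries ℂ} {F H : PowerSeries ℂ} {m : ℕ}
    (hf : ∀ j ≤ m, Filter.Tendsto (fun k => PowerSeries.coeff j (f k)) Filter.atTop
      (nhds (PowerSeries.coeff j F)))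
    (hg : ∀ j ≤ m, Filter.Tendsto (fun k => PowerSeries.coeff j (g k)) Filter.atTop
      (nhds (PowerSeries.coeff j H))) :
    Filter.Tendsto (fun k => PowerSeries.coeff m (f k * g k)) Filter.atTop
      (nhds (PowerSeries.coeff m (F * H))) := by
  simp only [PowerSeries.coeff_mul]
  refine tendsto_finsetSum _ fun p hp => ?_
  rw [Finset.HasAntidiagonal.mem_antidiagonal] at hp
  exact (hf p.1 (by omega)).mul (hg p.2 (by omega))

private noncomputable def lt (k : ℕ) : ℝ := 1 / ((k : ℝ) + 1)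

private lemma lt_pos (k : ℕ) : 0 < lt k := by unfold lt; positivity

private lemma lt_mul (k : ℕ) : ((k : ℝ) + 1) * lt k = 1 := by
  unfold lt
  have : (k : ℝ) + 1 ≠ 0 := by positivity
  field_simp

private noncomputable def lr (w : PowerSeries ℂ) (k : ℕ) : PowerSeries ℂ :=
  (1 + PowerSeries.C ((lt k : ℝ) : ℂ) * w)⁻¹

private lemma lr_mul {w : PowerSeries ℂ} (hw : Acc w) (k : ℕ) :
    (1 + PowerSeries.C ((lt k : ℝ) : ℂ) * w) * lr w k = 1 :=
  PowerSeries.mul_inv_cancel _ (pc_res hw (lt k) (lt_pos k).le).1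

private lemma lr_PC {w : PowerSeries ℂ} (hw : Acc w) (k : ℕ) : PC (lr w k) :=
  (pc_res hw (lt k) (lt_pos k).le).2

private lemma lr_lim {w : PowerSeries ℂ} (hw : Acc w) (m : ℕ) :
    Filter.Tendsto (fun k => PowerSeries.coeff m (lr w k)) Filter.atTop
      (nhds (PowerSeries.coeff m (1 : PowerSeries ℂ))) := by
  rw [tendsto_iff_norm_sub_tendsto_zero]
  have hB : ∀ k, ‖PowerSeries.coeff m (lr w k) - PowerSeries.coeff m (1 : PowerSeries ℂ)‖ ≤
      lt k * ∑ p ∈ Finset.HasAntidiagonal.antidiagonal m, ‖PowerSeries.coeff p.1 w‖ := by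
    intro k
    have h1 := congrArg (PowerSeries.coeff m) (lr_mul hw k)
    have h2 : (1 + PowerSeries.C ((lt k : ℝ) : ℂ) * w) * lr w k =
        lr w k + PowerSeries.C ((lt k : ℝ) : ℂ) * (w * lr w k) := by ring
    rw [h2, map_add, PowerSeries.coeff_C_mul] at h1
    have h3 : PowerSeries.coeff m (lr w k) - PowerSeries.coeff m (1 : PowerSeries ℂ) =
        -(((lt k : ℝ) : ℂ) * PowerSeries.coeff m (w * lr w k)) := by
      rw [← h1]; ring
    rw [h3, norm_neg, norm_mul, Complex.norm_real, Real.norm_of_nonneg (lt_pos k).le]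
    refine mul_le_mul_of_nonneg_left ?_ (lt_pos k).le
    rw [PowerSeries.coeff_mul]
    refine (norm_sum_le _ _).trans (sum_le_sum fun p _ => ?_)
    rw [norm_mul]
    have h4 := lim_coeff_le (lr_PC hw k) p.2
    have h5 := norm_nonneg (PowerSeries.coeff p.1 w)
    nlinarith
  have hlim : Filter.Tendsto (fun k : ℕ => lt k *
      ∑ p ∈ Finset.HasAntidiagonal.antidiagonal m, ‖PowerSeries.coeff p.1 w‖) Filter.atTop (nhds 0) := by
    have h6 : Filter.Tendsto (fun k : ℕ => lt k) Filter.atTop (nhds 0) :=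
      tendsto_one_div_add_atTop_nhds_zero_nat
    have h7 := h6.mul_const (∑ p ∈ Finset.HasAntidiagonal.antidiagonal m, ‖PowerSeries.coeff p.1 w‖)
    rwa [zero_mul] at h7
  exact squeeze_zero (fun k => norm_nonneg _) hB hlim

private lemma lr_const_ne {w : PowerSeries ℂ} (hw : Acc w) (k : ℕ) :
    PowerSeries.constantCoeff (lr w k) ≠ 0 := by
  intro h
  have h1 := congrArg PowerSeries.constantCoeff (lr_mul hw k)
  rw [map_mul, h, mul_zero, map_one] at h1
  exact zero_ne_one h1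

private noncomputable def lG (w : PowerSeries ℂ) (k : ℕ) : PowerSeries ℂ := lr w k ^ (k + 1)

private lemma lG_PC {w : PowerSeries ℂ} (hw : Acc w) (k : ℕ) : PC (lG w k) :=
  lim_PC_pow (lr_PC hw k) (k + 1)

private lemma lG_const_ne {w : PowerSeries ℂ} (hw : Acc w) (k : ℕ) :
    PowerSeries.constantCoeff (lG w k) ≠ 0 := by
  unfold lG
  rw [map_pow]
  exact pow_ne_zero _ (lr_const_ne hw k)

private lemma ld_lG {w : PowerSeries ℂ} (hw : Acc w) (k : ℕ) :
    ld (lG w k) = -((PowerSeries.X * PowerSeries.derivative ℂ w) * lr w k) := by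
  have hs := (pc_res hw (lt k) (lt_pos k).le).1
  have h1 : ld (1 + PowerSeries.C ((lt k : ℝ) : ℂ) * w) + ld (lr w k) = 0 := by
    rw [← ld_mul hs (lr_const_ne hw k), lr_mul hw k, ld_one]
  have h2 : ld (1 + PowerSeries.C ((lt k : ℝ) : ℂ) * w) =
      PowerSeries.C ((lt k : ℝ) : ℂ) * ((PowerSeries.X * PowerSeries.derivative ℂ w) * lr w k) := by
    unfold ld lr
    have h3 : PowerSeries.derivative ℂ (1 + PowerSeries.C ((lt k : ℝ) : ℂ) * w) =
        PowerSeries.C ((lt k : ℝ) : ℂ) * PowerSeries.derivative ℂ w := by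
      rw [map_add, ← PowerSeries.smul_eq_C_mul, ← PowerSeries.smul_eq_C_mul, Derivation.map_smul,
        Derivation.map_one_eq_zero, zero_add]
    rw [h3]
    ring
  have h4 : ld (lr w k) = -(PowerSeries.C ((lt k : ℝ) : ℂ) *
      ((PowerSeries.X * PowerSeries.derivative ℂ w) * lr w k)) := by
    rw [← h2]
    linear_combination h1
  unfold lG
  rw [ld_pow (lr_const_ne hw k), h4, smul_neg, PowerSeries.smul_eq_C_mul, ← mul_assoc, ← map_mul]
  have h5 : (((k + 1 : ℕ) : ℂ)) * ((lt k : ℝ) : ℂ) = 1 := by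
    have := lt_mul k
    have h6 : ((((k : ℝ) + 1) * lt k : ℝ) : ℂ) = 1 := by rw [this]; simp
    push_cast at h6 ⊢
    exact h6
  rw [h5, map_one, one_mul]

private lemma ld_lG_lim {w : PowerSeries ℂ} (hw : Acc w) (m : ℕ) :
    Filter.Tendsto (fun k => PowerSeries.coeff m (ld (lG w k))) Filter.atTop
      (nhds (-((m : ℂ) * PowerSeries.coeff m w))) := by
  have e : (fun k => PowerSeries.coeff m (ld (lG w k))) =
      fun k => -PowerSeries.coeff m ((PowerSeries.X * PowerSeries.derivative ℂ w) * lr w k) := by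
    funext k
    rw [ld_lG hw k, map_neg]
  have e2 : PowerSeries.coeff m ((PowerSeries.X * PowerSeries.derivative ℂ w) * 1) =
      (m : ℂ) * PowerSeries.coeff m w := by
    rw [mul_one]
    rcases m with _ | n
    · rw [PowerSeries.coeff_zero_X_mul]
      simp
    · rw [PowerSeries.coeff_succ_X_mul, PowerSeries.coeff_derivative]
      push_cast
      ring
  rw [e, ← e2]
  exact (lim_mul (f := fun _ => PowerSeries.X * PowerSeries.derivative ℂ w)
    (F := PowerSeries.X * PowerSeries.derivative ℂ w) (H := 1)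
    (fun j _ => tendsto_const_nhds) (fun j _ => lr_lim hw j)).neg

private lemma lG_zero_lim {w : PowerSeries ℂ} (w0 : ℝ)
    (h0 : PowerSeries.coeff 0 w = (w0 : ℂ)) :
    Filter.Tendsto (fun k => PowerSeries.coeff 0 (lG w k)) Filter.atTop
      (nhds ((Real.exp (-w0) : ℝ) : ℂ)) := by
  have e : ∀ k, PowerSeries.coeff 0 (lG w k) =
      ((((1 + w0 / ((k + 1 : ℕ) : ℝ)) ^ (k + 1))⁻¹ : ℝ) : ℂ) := by
    intro k
    unfold lG lr
    rw [PowerSeries.coeff_zero_eq_constantCoeff_apply, map_pow, PowerSeries.constantCoeff_inv,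
      map_add, map_one, map_mul, PowerSeries.constantCoeff_C,
      ← PowerSeries.coeff_zero_eq_constantCoeff_apply, h0, inv_pow]
    unfold lt
    push_cast
    congr 2
    ring
  have h1 := Real.tendsto_one_add_div_pow_exp w0
  have h2 := (Filter.tendsto_add_atTop_iff_nat 1).2 h1
  have h3 := h2.inv₀ (Real.exp_pos w0).ne'
  have h4 : Filter.Tendsto (fun k : ℕ => (((1 + w0 / ((k + 1 : ℕ) : ℝ)) ^ (k + 1))⁻¹ : ℝ))
      Filter.atTop (nhds (Real.exp (-w0))) := by
    rw [Real.exp_neg]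
    exact h3
  have h5 := (Complex.continuous_ofReal.tendsto (Real.exp (-w0))).comp h4
  refine h5.congr fun k => ?_
  rw [e k]
  rfl

private lemma lG_lim {w : PowerSeries ℂ} (hw : Acc w) (w0 : ℝ)
    (h0 : PowerSeries.coeff 0 w = (w0 : ℂ)) (N : ℕ) (G : PowerSeries ℂ)
    (hG0 : PowerSeries.constantCoeff G = 1)
    (hG : ∀ m, 1 ≤ m → m ≤ N → PowerSeries.coeff m (ld G) = -((m : ℂ) * PowerSeries.coeff m w)) :
    ∀ m, m ≤ N → Filter.Tendsto (fun k => PowerSeries.coeff m (lG w k)) Filter.atTop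
      (nhds (((Real.exp (-w0) : ℝ) : ℂ) * PowerSeries.coeff m G)) := by
  intro m
  induction m using Nat.strong_induction_on with
  | _ m ih =>
    intro hm
    rcases Nat.eq_zero_or_pos m with rfl | hpos
    · rw [PowerSeries.coeff_zero_eq_constantCoeff_apply G, hG0, mul_one]
      exact lG_zero_lim w0 h0
    · have hm0 : (m : ℂ) ≠ 0 := by exact_mod_cast hpos.ne'
      have e1 : ∀ k, PowerSeries.coeff m (lG w k) = (m : ℂ)⁻¹ *
          ∑ i ∈ Icc 1 m, PowerSeries.coeff i (ld (lG w k)) *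
            PowerSeries.coeff (m - i) (lG w k) := by
        intro k
        rw [← ld_rec _ (lG_const_ne hw k) m, inv_mul_cancel_left₀ hm0]
      have e2 : ((Real.exp (-w0) : ℝ) : ℂ) * PowerSeries.coeff m G = (m : ℂ)⁻¹ *
          ∑ i ∈ Icc 1 m, (-((i : ℂ) * PowerSeries.coeff i w)) *
            (((Real.exp (-w0) : ℝ) : ℂ) * PowerSeries.coeff (m - i) G) := by
        have h1 := ld_rec G (by rw [hG0]; exact one_ne_zero) m
        have h2 : ∑ i ∈ Icc 1 m, (-((i : ℂ) * PowerSeries.coeff i w)) *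
            (((Real.exp (-w0) : ℝ) : ℂ) * PowerSeries.coeff (m - i) G) =
            ((Real.exp (-w0) : ℝ) : ℂ) * ∑ i ∈ Icc 1 m, PowerSeries.coeff i (ld G) *
              PowerSeries.coeff (m - i) G := by
          rw [mul_sum]
          refine sum_congr rfl fun i hi => ?_
          rw [mem_Icc] at hi
          rw [hG i hi.1 (hi.2.trans hm)]
          ring
        rw [h2, ← h1, ← mul_assoc, ← mul_assoc, mul_comm ((m : ℂ)⁻¹) _, mul_assoc _ ((m : ℂ)⁻¹) _,
          inv_mul_cancel₀ hm0, mul_one]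
      rw [e2]
      simp only [e1]
      refine Filter.Tendsto.const_mul _ (tendsto_finsetSum _ fun i hi => ?_)
      rw [mem_Icc] at hi
      exact (ld_lG_lim hw i).mul (ih (m - i) (by omega) (by omega))

theorem pc_exp {w : PowerSeries ℂ} (hw : Acc w) (w0 : ℝ) (h0 : PowerSeries.coeff 0 w = (w0 : ℂ))
    (N : ℕ) (G : PowerSeries ℂ) (hG0 : PowerSeries.constantCoeff G = 1)
    (hG : ∀ m, 1 ≤ m → m ≤ N → PowerSeries.coeff m (ld G) = -((m : ℂ) * PowerSeries.coeff m w))
    (h : PowerSeries ℂ) (R : ℕ) (hR : R ≤ N + 1) :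
    pn (G * h) R ≤ Real.exp (2 * w0) * pn h R := by
  have h1 : ∀ m, m < R → Filter.Tendsto (fun k => PowerSeries.coeff m (lG w k * h)) Filter.atTop
      (nhds (((Real.exp (-w0) : ℝ) : ℂ) * PowerSeries.coeff m (G * h))) := by
    intro m hm
    have e : ((Real.exp (-w0) : ℝ) : ℂ) * PowerSeries.coeff m (G * h) =
        PowerSeries.coeff m ((PowerSeries.C ((Real.exp (-w0) : ℝ) : ℂ) * G) * h) := by
      rw [mul_assoc, PowerSeries.coeff_C_mul]
    rw [e]
    refine lim_mul (g := fun _ => h) (fun j hj => ?_) (fun j _ => tendsto_const_nhds)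
    rw [PowerSeries.coeff_C_mul]
    exact lG_lim hw w0 h0 N G hG0 hG j (by omega)
  have h2 : Filter.Tendsto (fun k => pn (lG w k * h) R) Filter.atTop
      (nhds (∑ m ∈ range R, ‖((Real.exp (-w0) : ℝ) : ℂ) * PowerSeries.coeff m (G * h)‖ ^ 2)) := by
    unfold pn
    refine tendsto_finsetSum _ fun m hm => ?_
    rw [mem_range] at hm
    exact (h1 m hm).norm.pow 2
  have h3 : ∑ m ∈ range R, ‖((Real.exp (-w0) : ℝ) : ℂ) * PowerSeries.coeff m (G * h)‖ ^ 2 ≤
      pn h R := le_of_tendsto' h2 fun k => lG_PC hw k h R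
  have h4 : ∑ m ∈ range R, ‖((Real.exp (-w0) : ℝ) : ℂ) * PowerSeries.coeff m (G * h)‖ ^ 2 =
      Real.exp (-w0) ^ 2 * pn (G * h) R := by
    unfold pn
    rw [mul_sum]
    refine sum_congr rfl fun m _ => ?_
    rw [norm_mul, Complex.norm_real, Real.norm_of_nonneg (Real.exp_pos _).le, mul_pow]
  rw [h4] at h3
  have h5 : Real.exp (2 * w0) * (Real.exp (-w0) ^ 2 * pn (G * h) R) = pn (G * h) R := by
    have h6 : Real.exp (2 * w0) * Real.exp (-w0) ^ 2 = 1 := by
      rw [pow_two, ← Real.exp_add, ← Real.exp_add, ← Real.exp_zero]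
      congr 1
      ring
    rw [← mul_assoc, h6, one_mul]
  rw [← h5]
  exact mul_le_mul_of_nonneg_left h3 (Real.exp_pos _).le

end Pool.Agent.Lib.MP_7ab245_nt.Cnt2
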