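import Pool.Agent.Lib.MP_7ab245_nt.Cnt2.Trig

/-!
CN2-Maj: the majorant.

PROOF. `u = ∑_{i ∈ Icc 1 N} C (c i) X^i`, `V = ∑_{i,j ∈ Icc 1 N} C (κ(i,j) c i conj (c j)) X^(i - j)` with `κ = 1` if `i = j`, `2` if `j < i`, `0` if `i < j` (natural subtraction),
`v = C (A/2) + C (1/(4A)) * (u² + V)`. On `|ζ| = 1` (`conj ζ = ζ⁻¹`): `Re V(ζ) = |u(ζ)|²` (pair the terms `(i,j)` and `(j,i)`), `Re u² + |u|² = 2 (Re u)²`, so
`Re v = A/2 + (Re u)²/(2A)`, which is `≥ |Re u|` (`A² + y² ≥ 2 A |y|`). `u.coeff 0 = 0`, `V.coeff 0 = ∑ ‖c i‖²`.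
`Acc v` and `Acc (v - u)` by acc_circle.
-/

set_option autoImplicit false

open Finset

namespace Pool.Agent.Lib.MP_7ab245_nt.Cnt2

open Pool.Agent.Lib.MP_7ab245_nt.LogVar Pool.Agent.Lib.MP_7ab245_nt.Cnt

/-- the polynomial `∑_{i=1}^N c_i X^i` -/
noncomputable def uu (c : ℕ → ℂ) (N : ℕ) : Polynomial ℂ :=
  ∑ i ∈ Icc 1 N, Polynomial.C (c i) * Polynomial.X ^ i

theorem uu_coeff (c : ℕ → ℂ) (N m : ℕ) :
    (uu c N).coeff m = if 1 ≤ m ∧ m ≤ N then c m else 0 := by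
  unfold uu
  rw [Polynomial.finsetSum_coeff]
  simp only [Polynomial.coeff_C_mul_X_pow]
  rw [Finset.sum_ite_eq]
  simp only [Finset.mem_Icc]

/-- the weights -/
private noncomputable def maj_k (i j : ℕ) : ℝ := if i = j then 1 else if j < i then 2 else 0

private theorem maj_k_symm (i j : ℕ) : maj_k i j + maj_k j i = 2 := by
  unfold maj_k
  rcases lt_trichotomy i j with h | h | h
  · rw [if_neg h.ne, if_neg h.not_gt, if_neg h.ne', if_pos h]; norm_num
  · rw [if_pos h, if_pos h.symm]; norm_num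
  · rw [if_neg h.ne', if_pos h, if_neg h.ne, if_neg h.not_gt]; norm_num

/-- the polynomial with real part `|u|^2` on the circle -/
private noncomputable def maj_V (c : ℕ → ℂ) (N : ℕ) : Polynomial ℂ :=
  ∑ i ∈ Icc 1 N, ∑ j ∈ Icc 1 N,
    Polynomial.C ((maj_k i j : ℂ) * (c i * (starRingEnd ℂ) (c j))) * Polynomial.X ^ (i - j)

private theorem maj_V_coeff_zero (c : ℕ → ℂ) (N : ℕ) :
    (maj_V c N).coeff 0 = ((∑ i ∈ Icc 1 N, ‖c i‖ ^ 2 : ℝ) : ℂ) := by
  unfold maj_V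
  rw [Polynomial.finsetSum_coeff]
  push_cast
  refine Finset.sum_congr rfl fun i hi => ?_
  rw [Polynomial.finsetSum_coeff]
  simp only [Polynomial.coeff_C_mul_X_pow]
  rw [Finset.sum_eq_single i]
  · rw [if_pos (by omega)]
    unfold maj_k
    rw [if_pos rfl]
    push_cast
    rw [one_mul, Complex.mul_conj, Complex.normSq_eq_norm_sq]
    push_cast
    rfl
  · intro j _ hj
    split_ifs with h
    · have hlt : i < j := by omega
      unfold maj_k
      rw [if_neg hlt.ne, if_neg hlt.not_gt]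
      push_cast
      rw [zero_mul]
    · rfl
  · intro h
    exact absurd hi h

private theorem maj_V_re (c : ℕ → ℂ) (N : ℕ) (ζ : ℂ) (hζ : ‖ζ‖ = 1) :
    ((maj_V c N).eval ζ).re = Complex.normSq ((uu c N).eval ζ) := by
  have hz : ζ * (starRingEnd ℂ) ζ = 1 := by
    rw [Complex.mul_conj, Complex.normSq_eq_norm_sq, hζ]
    norm_num
  set F : ℕ → ℕ → ℂ := fun i j => (c i * ζ ^ i) * (starRingEnd ℂ) (c j * ζ ^ j) with hF
  have hu : (uu c N).eval ζ = ∑ i ∈ Icc 1 N, c i * ζ ^ i := by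
    unfold uu
    rw [Polynomial.eval_finsetSum]
    refine Finset.sum_congr rfl fun i _ => ?_
    simp
  have hFs : ∀ i j, (F i j).re = (F j i).re := by
    intro i j
    simp only [hF]
    rw [← Complex.conj_re (c i * ζ ^ i * (starRingEnd ℂ) (c j * ζ ^ j)), map_mul,
      Complex.conj_conj, mul_comm]
  have hN : Complex.normSq ((uu c N).eval ζ) = ∑ i ∈ Icc 1 N, ∑ j ∈ Icc 1 N, (F i j).re := by
    have h1 : ((Complex.normSq ((uu c N).eval ζ) : ℝ) : ℂ) = ∑ i ∈ Icc 1 N, ∑ j ∈ Icc 1 N, F i j := by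
      rw [← Complex.mul_conj, hu, map_sum, Finset.sum_mul_sum]
    have h2 := congrArg Complex.re h1
    rw [Complex.ofReal_re, Complex.re_sum] at h2
    rw [h2]
    refine Finset.sum_congr rfl fun i _ => ?_
    rw [Complex.re_sum]
  have hV : ((maj_V c N).eval ζ).re = ∑ i ∈ Icc 1 N, ∑ j ∈ Icc 1 N, maj_k i j * (F i j).re := by
    unfold maj_V
    rw [Polynomial.eval_finsetSum, Complex.re_sum]
    refine Finset.sum_congr rfl fun i _ => ?_
    rw [Polynomial.eval_finsetSum, Complex.re_sum]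
    refine Finset.sum_congr rfl fun j _ => ?_
    rw [Polynomial.eval_mul, Polynomial.eval_C, Polynomial.eval_pow, Polynomial.eval_X, mul_assoc,
      Complex.re_ofReal_mul]
    by_cases hij : j ≤ i
    · congr 2
      simp only [hF]
      rw [map_mul, map_pow]
      have : ζ ^ i = ζ ^ (i - j) * ζ ^ j := by rw [← pow_add, Nat.sub_add_cancel hij]
      rw [this]
      have h2 : ζ ^ j * (starRingEnd ℂ) ζ ^ j = 1 := by rw [← mul_pow, hz, one_pow]
      calc c i * (starRingEnd ℂ) (c j) * ζ ^ (i - j)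
          = c i * (starRingEnd ℂ) (c j) * ζ ^ (i - j) * 1 := by rw [mul_one]
        _ = c i * (starRingEnd ℂ) (c j) * ζ ^ (i - j) * (ζ ^ j * (starRingEnd ℂ) ζ ^ j) := by rw [h2]
        _ = _ := by ring
    · have h0 : maj_k i j = 0 := by
        unfold maj_k
        rw [if_neg (by omega), if_neg (by omega)]
      rw [h0, zero_mul, zero_mul]
  rw [hV, hN]
  have hswap : ∑ i ∈ Icc 1 N, ∑ j ∈ Icc 1 N, maj_k j i * (F i j).re =
      ∑ i ∈ Icc 1 N, ∑ j ∈ Icc 1 N, maj_k i j * (F i j).re := by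
    rw [Finset.sum_comm]
    refine Finset.sum_congr rfl fun i _ => Finset.sum_congr rfl fun j _ => ?_
    rw [hFs j i]
  have hsum : ∑ i ∈ Icc 1 N, ∑ j ∈ Icc 1 N, maj_k i j * (F i j).re +
      ∑ i ∈ Icc 1 N, ∑ j ∈ Icc 1 N, maj_k j i * (F i j).re =
      2 * ∑ i ∈ Icc 1 N, ∑ j ∈ Icc 1 N, (F i j).re := by
    rw [← Finset.sum_add_distrib, Finset.mul_sum]
    refine Finset.sum_congr rfl fun i _ => ?_
    rw [← Finset.sum_add_distrib, Finset.mul_sum]
    refine Finset.sum_congr rfl fun j _ => ?_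
    rw [← add_mul, maj_k_symm]
  rw [hswap] at hsum
  linarith

theorem maj (c : ℕ → ℂ) (N : ℕ) (A : ℝ) (hA : 0 < A) :
    ∃ (v : Polynomial ℂ) (v0 : ℝ), v.coeff 0 = (v0 : ℂ) ∧
      v0 = A / 2 + (∑ i ∈ Icc 1 N, ‖c i‖ ^ 2) / (4 * A) ∧
      Acc (v : PowerSeries ℂ) ∧ Acc (((v - uu c N : Polynomial ℂ)) : PowerSeries ℂ) := by
  set u := uu c N with hu
  set v : Polynomial ℂ := Polynomial.C ((A / 2 : ℝ) : ℂ) +
    Polynomial.C ((1 / (4 * A) : ℝ) : ℂ) * (u * u + maj_V c N) with hv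
  have hre : ∀ ζ : ℂ, ‖ζ‖ = 1 → (v.eval ζ).re = A / 2 + (u.eval ζ).re ^ 2 / (2 * A) := by
    intro ζ hζ
    rw [hv, Polynomial.eval_add, Polynomial.eval_C, Polynomial.eval_mul, Polynomial.eval_C,
      Polynomial.eval_add, Polynomial.eval_mul, Complex.add_re, Complex.ofReal_re,
      Complex.re_ofReal_mul, Complex.add_re, maj_V_re c N ζ hζ, Complex.mul_re, Complex.normSq_apply]
    rw [← hu]
    field_simp
    ring
  refine ⟨v, A / 2 + (∑ i ∈ Icc 1 N, ‖c i‖ ^ 2) / (4 * A), ?_, rfl, ?_, ?_⟩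
  · rw [hv, Polynomial.coeff_add, Polynomial.coeff_C_zero, Polynomial.coeff_C_mul, Polynomial.coeff_add,
      Polynomial.mul_coeff_zero, maj_V_coeff_zero, hu, uu_coeff]
    rw [if_neg (by omega)]
    push_cast
    ring
  · refine acc_circle v fun ζ hζ => ?_
    rw [hre ζ hζ]
    have : 0 ≤ (u.eval ζ).re ^ 2 / (2 * A) := div_nonneg (sq_nonneg _) (by linarith)
    linarith
  · refine acc_circle _ fun ζ hζ => ?_
    rw [Polynomial.eval_sub, Complex.sub_re, hre ζ hζ]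
    set y := (u.eval ζ).re
    have h : A / 2 + y ^ 2 / (2 * A) - y = (A - y) ^ 2 / (2 * A) := by
      field_simp
      ring
    rw [h]
    exact div_nonneg (sq_nonneg _) (by linarith)

end Pool.Agent.Lib.MP_7ab245_nt.Cnt2
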