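import Pool.Agent.Lib.MP_7ab245_nt.Cnt2.Maj
import Pool.Agent.Lib.MP_7ab245_nt.Cnt2.Lim

/-!
CN2-Pair: the multiplier of a pair of polynomials with close outer parts.

PROOF. `c m = (QQ m f - QQ m g)/m`, `u = uu c N`, `maj c N Λ`: `v0 = Λ/2 + (∑ ‖c m‖²)/(4Λ) ≤ Λ` by the hypothesis. `exists_ld` with `l m = -(m * v.coeff m)` gives `q`.
`pc_exp` for `w = v`, `G = q`, `h = 1`: `pn q (N+1) ≤ exp (2 v0) * pn 1 (N+1) = exp (2 v0)` (`pn 1 (N+1) = 1`).
`G := q * (ho (cx f) * (ho (cx g))⁻¹)`: constant coefficient 1 (ho_const), `ld G = ld q + ld (ho (cx f)) - ld (ho (cx g))` (ld_mul; `ld (u⁻¹) = -ld u` from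
`ld (u * u⁻¹) = ld 1 = 0`), so for `1 ≤ m ≤ N`: `coeff m (ld G) = -(m v_m) + QQ m f - QQ m g = -(m (v - u)_m)` (uu_coeff; QQ is by definition
`coeff m (ld (ho (cx f)))`). `pc_exp` for `w = v - u` (`coeff 0 (v-u) = v0`), `G`, `h = 1`: `pn G (N+1) ≤ exp (2 v0)`.
`q * ((cx f) * (ho (cx g))⁻¹) = C (kk (cx f)) * (bb (cx f) * G)` (poly_eq), so `pn _ (N+1) = ‖kk‖² pn (bb * G) (N+1) ≤ (MM f)² pn G (N+1)` (norm_kk, PC_bb; `MM f = (cx f).mahlerMeasure`).
-/

set_option autoImplicit false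

open Finset

namespace Pool.Agent.Lib.MP_7ab245_nt.Cnt2

open Pool.Agent.Lib.MP_7ab245_nt.LogVar Pool.Agent.Lib.MP_7ab245_nt.Cnt

private lemma pair_pn_one (R : ℕ) : pn (1 : PowerSeries ℂ) (R + 1) = 1 := by
  unfold pn
  rw [sum_range_succ']
  simp [PowerSeries.coeff_one]

private lemma pair_pn_C_mul (a : ℂ) (x : PowerSeries ℂ) (R : ℕ) :
    pn (PowerSeries.C a * x) R = ‖a‖ ^ 2 * pn x R := by
  unfold pn
  rw [mul_sum]
  refine sum_congr rfl fun m _ => ?_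
  rw [PowerSeries.coeff_C_mul, norm_mul, mul_pow]

theorem pair (f g : Polynomial ℤ) (hf : f.coeff 0 ≠ 0) (N : ℕ) (Λ : ℝ) (hΛ : 0 < Λ)
    (h : ∑ m ∈ Icc 1 N, ‖QQ m f - QQ m g‖ ^ 2 / (m : ℝ) ^ 2 ≤ 2 * Λ ^ 2) :
    ∃ q : PowerSeries ℂ, PowerSeries.constantCoeff q = 1 ∧ pn q (N + 1) ≤ Real.exp (2 * Λ) ∧
      pn (q * (((cx f : Polynomial ℂ) : PowerSeries ℂ) * (ho (cx g))⁻¹)) (N + 1) ≤
        (MM f) ^ 2 * Real.exp (2 * Λ) := by
  set c : ℕ → ℂ := fun m => (QQ m f - QQ m g) / (m : ℂ) with hc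
  obtain ⟨v, v0, hv0, hv1, hA1, hA2⟩ := maj c N Λ hΛ
  have hv2 : v0 ≤ Λ := by
    have h1 : ∑ i ∈ Icc 1 N, ‖c i‖ ^ 2 ≤ 2 * Λ ^ 2 := by
      refine le_trans (le_of_eq ?_) h
      refine sum_congr rfl fun i _ => ?_
      simp only [hc]
      rw [norm_div, Complex.norm_natCast, div_pow]
    have h2 : (∑ i ∈ Icc 1 N, ‖c i‖ ^ 2) / (4 * Λ) ≤ Λ / 2 := by
      rw [div_le_iff₀ (by linarith)]
      nlinarith
    rw [hv1]
    linarith
  have hexp : Real.exp (2 * v0) ≤ Real.exp (2 * Λ) := Real.exp_le_exp.2 (by linarith)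
  obtain ⟨q, hq0, hq⟩ := exists_ld (fun m => -((m : ℂ) * v.coeff m))
  have hqne : PowerSeries.constantCoeff q ≠ 0 := by rw [hq0]; exact one_ne_zero
  -- the outer parts
  have hF0 : PowerSeries.constantCoeff (ho (cx f)) = 1 := ho_const _
  have hG0 : PowerSeries.constantCoeff (ho (cx g)) = 1 := ho_const _
  have hFne : PowerSeries.constantCoeff (ho (cx f)) ≠ 0 := ho_ne _
  have hGne : PowerSeries.constantCoeff (ho (cx g)) ≠ 0 := ho_ne _
  have hI0 : PowerSeries.constantCoeff (ho (cx g))⁻¹ = 1 := by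
    rw [PowerSeries.constantCoeff_inv, hG0, inv_one]
  have hIne : PowerSeries.constantCoeff (ho (cx g))⁻¹ ≠ 0 := by rw [hI0]; exact one_ne_zero
  have hldI : ld ((ho (cx g))⁻¹) = - ld (ho (cx g)) := by
    have h1 : ld (ho (cx g)) + ld ((ho (cx g))⁻¹) = 0 := by
      rw [← ld_mul hGne hIne, PowerSeries.mul_inv_cancel _ hGne, ld_one]
    linear_combination h1
  set G : PowerSeries ℂ := q * (ho (cx f) * (ho (cx g))⁻¹) with hG
  have hGc : PowerSeries.constantCoeff G = 1 := by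
    rw [hG, map_mul, map_mul, hq0, hF0, hI0]; ring
  have hldG : ld G = ld q + (ld (ho (cx f)) - ld (ho (cx g))) := by
    rw [hG, ld_mul hqne (by rw [map_mul]; exact mul_ne_zero hFne hIne), ld_mul hFne hIne, hldI]
    ring
  have hpq : pn q (N + 1) ≤ Real.exp (2 * v0) := by
    have h1 := pc_exp (w := (v : PowerSeries ℂ)) hA1 v0 (by rw [Polynomial.coeff_coe]; exact hv0)
      N q hq0 (fun m hm _ => by rw [hq m hm, Polynomial.coeff_coe]) 1 (N + 1) le_rfl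
    rwa [mul_one, pair_pn_one, mul_one] at h1
  have hpG : pn G (N + 1) ≤ Real.exp (2 * v0) := by
    have h1 := pc_exp (w := ((v - uu c N : Polynomial ℂ) : PowerSeries ℂ)) hA2 v0
      (by rw [Polynomial.coeff_coe, Polynomial.coeff_sub, uu_coeff, if_neg (by omega), sub_zero]
          exact hv0)
      N G hGc (fun m hm hmN => by
        have hm0 : (m : ℂ) ≠ 0 := by exact_mod_cast (by omega : m ≠ 0)
        rw [hldG, map_add, map_sub, hq m hm, Polynomial.coeff_coe, Polynomial.coeff_sub, uu_coeff,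
          if_pos ⟨hm, hmN⟩]
        have h2 : (m : ℂ) * c m = PowerSeries.coeff m (ld (ho (cx f))) -
            PowerSeries.coeff m (ld (ho (cx g))) := by
          change (m : ℂ) * ((QQ m f - QQ m g) / (m : ℂ)) = QQ m f - QQ m g
          rw [mul_div_cancel₀ _ hm0]
        rw [← h2]
        ring) 1 (N + 1) le_rfl
    rwa [mul_one, pair_pn_one, mul_one] at h1
  refine ⟨q, hq0, hpq.trans hexp, ?_⟩
  have hf0 : (cx f).coeff 0 ≠ 0 := by
    unfold cx
    rw [Polynomial.coeff_map]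
    simpa using hf
  have e : q * (((cx f : Polynomial ℂ) : PowerSeries ℂ) * (ho (cx g))⁻¹) =
      PowerSeries.C (kk (cx f)) * (bb (cx f) * G) := by
    rw [poly_eq (cx f) hf0, hG]
    ring
  rw [e, pair_pn_C_mul, norm_kk]
  have h3 : pn (bb (cx f) * G) (N + 1) ≤ Real.exp (2 * Λ) :=
    (PC_bb (cx f) G (N + 1)).trans (hpG.trans hexp)
  unfold MM
  exact mul_le_mul_of_nonneg_left h3 (sq_nonneg _)

end Pool.Agent.Lib.MP_7ab245_nt.Cnt2
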