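import Pool.Agent.Lib.MP_7ab245_nt.Cnt2.Defs

/-!
CN2-Res: resolvents of accretive series are prefix contractions.

PROOF. `acc_re0`: `ac w 1 1 = coeff 0 w`. `acc_add`, `acc_one`: `ac (w + w') h R = ac w h R + ac w' h R`.
`pc_res`: let `s = 1 + C t * w`; `constantCoeff s = 1 + t w₀ ≠ 0` because its real part is `≥ 1` (acc_re0). For `a`, `R` put `g = s⁻¹ * a`, so
`a = s * g = g + C t * (w * g)` (PowerSeries.mul_inv_cancel) and
`pn a R = ∑ ‖g_m + t (w g)_m‖² = pn g R + 2 t Re (ac w g R) + t² pn (w * g) R ≥ pn g R`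
(`‖x + t y‖² = ‖x‖² + 2 t Re (y * conj x) + t² ‖y‖²`, Complex.normSq_add / Complex.normSq_eq_norm_sq). `PC`, `pn` are in LogVar/Prefix.lean.
-/

set_option autoImplicit false

open Finset

namespace Pool.Agent.Lib.MP_7ab245_nt.Cnt2

open Pool.Agent.Lib.MP_7ab245_nt.LogVar Pool.Agent.Lib.MP_7ab245_nt.Cnt

theorem acc_re0 {w : PowerSeries ℂ} (hw : Acc w) : 0 ≤ (PowerSeries.coeff 0 w).re := by
  have h := hw 1 1
  unfold ac at h
  rw [sum_range_one, mul_one, PowerSeries.coeff_zero_one, map_one, mul_one] at h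
  exact h

private lemma cc_res {w : PowerSeries ℂ} (hw : Acc w) (t : ℝ) (ht : 0 ≤ t) :
    PowerSeries.constantCoeff (1 + PowerSeries.C (t : ℂ) * w) ≠ 0 := by
  intro h
  rw [map_add, map_one, map_mul, PowerSeries.constantCoeff_C] at h
  have h1 := congrArg Complex.re h
  rw [Complex.add_re, Complex.one_re, Complex.re_ofReal_mul, Complex.zero_re] at h1
  have h2 := acc_re0 hw
  rw [PowerSeries.coeff_zero_eq_constantCoeff_apply] at h2
  nlinarith [mul_nonneg ht h2]

private lemma nsq_res (x y : ℂ) (t : ℝ) :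
    ‖x + (t : ℂ) * y‖ ^ 2 = ‖x‖ ^ 2 + 2 * t * (y * (starRingEnd ℂ) x).re + t ^ 2 * ‖y‖ ^ 2 := by
  simp only [← Complex.normSq_eq_norm_sq, Complex.normSq_apply, Complex.add_re, Complex.add_im,
    Complex.mul_re, Complex.mul_im, Complex.conj_re, Complex.conj_im, Complex.ofReal_re,
    Complex.ofReal_im]
  ring

theorem pc_res {w : PowerSeries ℂ} (hw : Acc w) (t : ℝ) (ht : 0 ≤ t) :
    PowerSeries.constantCoeff (1 + PowerSeries.C (t : ℂ) * w) ≠ 0 ∧
      PC ((1 + PowerSeries.C (t : ℂ) * w)⁻¹) := by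
  refine ⟨cc_res hw t ht, ?_⟩
  intro a R
  set g := (1 + PowerSeries.C (t : ℂ) * w)⁻¹ * a with hg
  have ha : a = g + PowerSeries.C (t : ℂ) * (w * g) := by
    have h1 := PowerSeries.mul_inv_cancel (1 + PowerSeries.C (t : ℂ) * w) (cc_res hw t ht)
    calc a = ((1 + PowerSeries.C (t : ℂ) * w) * (1 + PowerSeries.C (t : ℂ) * w)⁻¹) * a := by
          rw [h1, one_mul]
      _ = g + PowerSeries.C (t : ℂ) * (w * g) := by rw [hg]; ring
  have h2 : pn a R = pn g R + 2 * t * (ac w g R).re + t ^ 2 * pn (w * g) R := by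
    unfold pn ac
    rw [Complex.re_sum, mul_sum, mul_sum, ← sum_add_distrib, ← sum_add_distrib]
    refine sum_congr rfl fun m _ => ?_
    conv_lhs => rw [ha]
    rw [map_add, PowerSeries.coeff_C_mul, nsq_res]
  have h3 := hw g R
  have h4 := pn_nonneg (w * g) R
  rw [h2]
  nlinarith [mul_nonneg ht h3, mul_nonneg (sq_nonneg t) h4]

end Pool.Agent.Lib.MP_7ab245_nt.Cnt2
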