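import Pool.Agent.Lib.MP_7ab245_nt.Cnt2.Cell
import Pool.Agent.Lib.MP_7ab245_nt.Cnt2.Cells
import Pool.Agent.Lib.MP_7ab245_nt.Cnt.Energy

/-!
CN2-Sqf: all squarefree polynomials of degree `n`.

PROOF. `sqf1` (fixed nonzero constant coefficient `a₀`, `n ≥ 1`): `cells` for `ι := F` with `x m f = QQ m f`, `E = 15 (n log (2nT))` (energy), then `|F| ≤ K * max |fibre|` (Finset.card_le_mul_card_image or
card_eq_sum_card_fiberwise), each nonempty fibre is bounded by `cell` (with `g` any element of the fibre). `D := 19 M0 + 4 n e^{-s} + 160 s T² e^{4Λ}`.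
`sqf` (as in Cnt/Sf.lean, proof of `sf`): `n = 0`: nonzero constants, at most `2T`. `n ≥ 1`, `f.coeff 0 ≠ 0`: at most `2T` values of the constant coefficient (mu_ge), `2T e^D` in all.
`f.coeff 0 = 0`: `f = X g`, `g` squarefree of degree `n - 1`, `g.coeff 0 ≠ 0`, `MM g = MM f`: at most `2T e^D` again (the bound for `n-1` is smaller; for `n - 1 = 0` constants; the hypothesis on `M0` for `n-1`
follows from the one for `n`: `(n-1) log (2(n-1)T) ≤ n log(2nT)`, see `prod_mono` in Cnt/Xl.lean). Total `≤ 4T e^D`.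
-/

set_option autoImplicit false

open Finset

namespace Pool.Agent.Lib.MP_7ab245_nt.Cnt2

open Pool.Agent.Lib.MP_7ab245_nt.LogVar Pool.Agent.Lib.MP_7ab245_nt.Cnt

private theorem Sqf_log_lower {n : ℕ} (hn : 1 ≤ n) (T : ℝ) (hT : 1 ≤ T) :
    0 ≤ Real.log (2 * n * T) := by
  apply Real.log_nonneg
  have h1 : (1 : ℝ) ≤ n := by exact_mod_cast hn
  nlinarith

private theorem Sqf_prod_mono {m n : ℕ} (h : m ≤ n) (T : ℝ) (hT : 1 ≤ T) :
    (m : ℝ) * Real.log (2 * m * T) ≤ n * Real.log (2 * n * T) := by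
  rcases Nat.eq_zero_or_pos m with hm | hm
  · subst hm
    simp only [Nat.cast_zero, zero_mul]
    rcases Nat.eq_zero_or_pos n with hn | hn
    · subst hn
      simp
    · exact mul_nonneg (Nat.cast_nonneg _) (Sqf_log_lower hn T hT)
  · have hmn : (m : ℝ) ≤ n := by exact_mod_cast h
    have hm' : (1 : ℝ) ≤ m := by exact_mod_cast hm
    have h1 := Sqf_log_lower hm T hT
    have h2 : Real.log (2 * m * T) ≤ Real.log (2 * n * T) := by
      apply Real.log_le_log (by positivity)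
      gcongr
    exact mul_le_mul hmn h2 h1 (by linarith)

theorem sqf1 (n M0 : ℕ) (hn : 1 ≤ n) (hM0 : 1 ≤ M0) (T Λ s : ℝ) (hT : 1 ≤ T) (hΛ : 0 < Λ)
    (hs : 1 ≤ s) (hE : 60 * (n * Real.log (2 * n * T)) ≤ M0 * Λ ^ 2) (a₀ : ℤ) (ha₀ : a₀ ≠ 0)
    (F : Finset (Polynomial ℤ))
    (hF : ∀ f ∈ F, f.natDegree = n ∧ f.coeff 0 = a₀ ∧ Squarefree f ∧ MM f ≤ T) :
    (F.card : ℝ) ≤ Real.exp (19 * M0 + (4 * n * Real.exp (-s) +
      160 * s * T ^ 2 * Real.exp (4 * Λ))) := by
  classical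
  set D := Real.exp (4 * n * Real.exp (-s) + 160 * s * T ^ 2 * Real.exp (4 * Λ)) with hD
  obtain ⟨K, κ, hK, hκ⟩ := cells (ι := F) n M0 hM0 (15 * (n * Real.log (2 * n * T))) Λ hΛ
    (by linarith) (fun m f => QQ m (f : Polynomial ℤ)) (by
      intro f
      have hf := hF f f.2
      exact energy (f : Polynomial ℤ) n T hf.1 hn hf.2.2.1 (by rw [hf.2.1]; exact ha₀) hf.2.2.2 hT)
  have hfib : ∀ c ∈ (univ : Finset (Fin K)), ((univ.filter fun f : F => κ f = c).card : ℝ) ≤ D := by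
    intro c _
    rcases (univ.filter fun f : F => κ f = c).eq_empty_or_nonempty with h0 | ⟨g, hg⟩
    · rw [h0, card_empty, Nat.cast_zero]
      exact (Real.exp_pos _).le
    · have h1 := cell n T Λ s hT hΛ hs a₀ ha₀ (g : Polynomial ℤ)
        ((univ.filter fun f : F => κ f = c).map ⟨Subtype.val, Subtype.val_injective⟩) (by
          intro f hf
          obtain ⟨f', hf', rfl⟩ := mem_map.1 hf
          have h2 := hF f' f'.2
          refine ⟨h2.1, h2.2.1, h2.2.2.2, ?_⟩
          have h3 := (mem_filter.1 hf').2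
          have h4 := (mem_filter.1 hg).2
          exact hκ f' g (h3.trans h4.symm))
      rw [card_map] at h1
      exact h1
  have hcard : (F.card : ℝ) = ∑ c : Fin K, ((univ.filter fun f : F => κ f = c).card : ℝ) := by
    have h1 : (univ : Finset F).card = ∑ c : Fin K, (univ.filter fun f : F => κ f = c).card :=
      card_eq_sum_card_fiberwise (fun f _ => mem_coe.2 (mem_univ (κ f)))
    rw [card_univ, Fintype.card_coe] at h1
    exact_mod_cast h1
  rw [hcard]
  refine (sum_le_sum hfib).trans ?_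
  rw [sum_const, card_univ, Fintype.card_fin, nsmul_eq_mul, Real.exp_add]
  exact mul_le_mul_of_nonneg_right hK (Real.exp_pos _).le

private theorem Sqf_fib (n M0 : ℕ) (hM0 : 1 ≤ M0) (T Λ s : ℝ) (hT : 1 ≤ T) (hΛ : 0 < Λ)
    (hs : 1 ≤ s) (hE : 60 * (n * Real.log (2 * n * T)) ≤ M0 * Λ ^ 2)
    (F : Finset (Polynomial ℤ)) (hF : ∀ f ∈ F, f.natDegree = n ∧ Squarefree f ∧ MM f ≤ T)
    (h0 : ∀ f ∈ F, f.coeff 0 ≠ 0) :
    (F.card : ℝ) ≤ 2 * T * Real.exp (19 * M0 + (4 * n * Real.exp (-s) +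
      160 * s * T ^ 2 * Real.exp (4 * Λ))) := by
  classical
  set E := Real.exp (19 * M0 + (4 * n * Real.exp (-s) +
      160 * s * T ^ 2 * Real.exp (4 * Λ))) with hE'
  have hE1 : 1 ≤ E := Real.one_le_exp (by positivity)
  set V : Finset ℤ := (Icc (-(⌊T⌋₊ : ℤ)) ⌊T⌋₊).erase 0 with hV
  have hmap : ∀ f ∈ F, f.coeff 0 ∈ V := by
    intro f hf
    have h1 := mu_ge f (h0 f hf)
    have h2 : 0 < |(f.coeff 0 : ℝ)| := abs_pos.mpr (by exact_mod_cast h0 f hf)
    rw [le_div_iff₀ h2, one_mul] at h1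
    have h3 : |(f.coeff 0 : ℝ)| ≤ T := h1.trans (hF f hf).2.2
    have h4 : (f.coeff 0).natAbs ≤ ⌊T⌋₊ := by
      apply Nat.le_floor
      rw [Nat.cast_natAbs]
      exact_mod_cast h3
    rw [hV, mem_erase, mem_Icc]
    refine ⟨h0 f hf, ?_, ?_⟩ <;> omega
  have hfib : ∀ a ∈ V, ((F.filter fun f => f.coeff 0 = a).card : ℝ) ≤ E := by
    intro a ha
    have ha0 : a ≠ 0 := (mem_erase.mp ha).1
    rcases Nat.eq_zero_or_pos n with hn | hn
    · have : (F.filter fun f => f.coeff 0 = a).card ≤ 1 := by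
        rw [card_le_one]
        intro f hf g hg
        rw [mem_filter] at hf hg
        rw [Polynomial.eq_C_of_natDegree_eq_zero ((hF f hf.1).1.trans hn),
          Polynomial.eq_C_of_natDegree_eq_zero ((hF g hg.1).1.trans hn), hf.2, hg.2]
      calc ((F.filter fun f => f.coeff 0 = a).card : ℝ) ≤ 1 := by exact_mod_cast this
        _ ≤ E := hE1
    · refine sqf1 n M0 hn hM0 T Λ s hT hΛ hs hE a ha0 _ ?_
      intro f hf
      rw [mem_filter] at hf
      exact ⟨(hF f hf.1).1, hf.2, (hF f hf.1).2⟩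
  have hVc : (V.card : ℝ) ≤ 2 * T := by
    have h1 : V.card = 2 * ⌊T⌋₊ := by
      rw [hV, card_erase_of_mem (by rw [mem_Icc]; omega), Int.card_Icc]
      omega
    rw [h1]
    push_cast
    linarith [Nat.floor_le (show 0 ≤ T by linarith)]
  calc (F.card : ℝ) = ∑ a ∈ V, ((F.filter fun f => f.coeff 0 = a).card : ℝ) := by
        rw [card_eq_sum_card_fiberwise hmap]; push_cast; rfl
    _ ≤ ∑ _a ∈ V, E := sum_le_sum hfib
    _ = V.card * E := by rw [sum_const, nsmul_eq_mul]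
    _ ≤ 2 * T * E := by gcongr

theorem sqf (n M0 : ℕ) (hM0 : 1 ≤ M0) (T Λ s : ℝ) (hT : 1 ≤ T) (hΛ : 0 < Λ)
    (hs : 1 ≤ s) (hE : 60 * (n * Real.log (2 * n * T)) ≤ M0 * Λ ^ 2)
    (F : Finset (Polynomial ℤ))
    (hF : ∀ f ∈ F, f.natDegree = n ∧ Squarefree f ∧ MM f ≤ T) :
    (F.card : ℝ) ≤ 4 * T * Real.exp (19 * M0 + (4 * n * Real.exp (-s) +
      160 * s * T ^ 2 * Real.exp (4 * Λ))) := by
  classical
  have h1 : ((F.filter fun f => f.coeff 0 ≠ 0).card : ℝ) ≤
      2 * T * Real.exp (19 * M0 + (4 * n * Real.exp (-s) +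
        160 * s * T ^ 2 * Real.exp (4 * Λ))) := by
    refine Sqf_fib n M0 hM0 T Λ s hT hΛ hs hE _ ?_ ?_
    · intro f hf
      exact hF f (mem_filter.mp hf).1
    · intro f hf
      exact (mem_filter.mp hf).2
  have hX : ∀ f ∈ F.filter (fun f => ¬ f.coeff 0 ≠ 0), f.divX * Polynomial.X = f := by
    intro f hf
    have := Polynomial.divX_mul_X_add f
    rw [not_not.mp (mem_filter.mp hf).2, map_zero, add_zero] at this
    exact this
  have h2 : ((F.filter fun f => ¬ f.coeff 0 ≠ 0).card : ℝ) ≤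
      2 * T * Real.exp (19 * M0 + (4 * n * Real.exp (-s) +
        160 * s * T ^ 2 * Real.exp (4 * Λ))) := by
    have hinj : Set.InjOn Polynomial.divX
        ((F.filter fun f => ¬ f.coeff 0 ≠ 0 : Finset (Polynomial ℤ)) : Set (Polynomial ℤ)) := by
      intro f hf g hg hfg
      rw [← hX f (mem_coe.mp hf), ← hX g (mem_coe.mp hg), hfg]
    rw [← card_image_of_injOn hinj]
    have hm1 := Sqf_prod_mono (Nat.sub_le n 1) T hT
    refine (Sqf_fib (n - 1) M0 hM0 T Λ s hT hΛ hs (by linarith) _ ?_ ?_).trans ?_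
    · intro g hg
      obtain ⟨f, hf, rfl⟩ := mem_image.mp hg
      have hf' := hF f (mem_filter.mp hf).1
      refine ⟨?_, ?_, ?_⟩
      · rw [Polynomial.natDegree_divX_eq_natDegree_tsub_one, hf'.1]
      · refine hf'.2.1.squarefree_of_dvd ?_
        exact ⟨Polynomial.X, (hX f hf).symm⟩
      · have h3 : MM f = MM f.divX := by
          have h6 : (Polynomial.X : Polynomial ℂ).mahlerMeasure = 1 := by
            have := Polynomial.mahlerMeasure_X_sub_C 0
            rwa [map_zero, sub_zero, norm_zero, max_eq_left zero_le_one] at this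
          conv_lhs => rw [← hX f hf]
          rw [MM, MM, cx, cx, Polynomial.map_mul, Polynomial.map_X, Polynomial.mahlerMeasure_mul,
            h6, mul_one]
        rw [← h3]
        exact hf'.2.2
    · intro g hg h0
      obtain ⟨f, hf, rfl⟩ := mem_image.mp hg
      have hf' := hF f (mem_filter.mp hf).1
      have h4 : Polynomial.X * Polynomial.X ∣ f := by
        have h5 : Polynomial.X ∣ f.divX := Polynomial.X_dvd_iff.mpr h0
        rw [← hX f hf]
        exact mul_dvd_mul h5 dvd_rfl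
      exact Polynomial.not_isUnit_X (hf'.2.1 _ h4)
    · have h7 : ((n - 1 : ℕ) : ℝ) ≤ n := by exact_mod_cast Nat.sub_le n 1
      gcongr
  have h3 : (F.card : ℝ) = ((F.filter fun f => f.coeff 0 ≠ 0).card : ℝ) +
      ((F.filter fun f => ¬ f.coeff 0 ≠ 0).card : ℝ) := by
    exact_mod_cast (card_filter_add_card_filter_not (s := F) (fun f => f.coeff 0 ≠ 0)).symm
  rw [h3]
  linarith

end Pool.Agent.Lib.MP_7ab245_nt.Cnt2
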