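import Pool.Agent.Lib.MP_7ab245_nt.Cnt2.Defs
import Pool.Agent.Lib.MP_7ab245_nt.LogVar.Fourier

/-!
A polynomial with nonnegative real part on the unit circle is accretive: with `H` the truncation of
`h`, the mean over the circle of `w(z) H(z) conj H(z)` is `ac w h R` (orthogonality), and its real
part is the mean of `Re w(z) * |H(z)|^2`.
-/

set_option autoImplicit false

open Finset

namespace Pool.Agent.Lib.MP_7ab245_nt.Cnt2

open Pool.Agent.Lib.MP_7ab245_nt.LogVar Pool.Agent.Lib.MP_7ab245_nt.Cnt MeasureTheory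
open Pool.Agent.Lib.MP_7ab245_nt.Mono (mu)

theorem acc_circle (w : Polynomial ℂ) (hw : ∀ ζ : ℂ, ‖ζ‖ = 1 → 0 ≤ (w.eval ζ).re) :
    Acc (w : PowerSeries ℂ) := by
  intro h R
  set H : Polynomial ℂ := ∑ m ∈ range R, Polynomial.C (PowerSeries.coeff m h) * Polynomial.X ^ m
    with hH
  have hHc : ∀ m, H.coeff m = if m < R then PowerSeries.coeff m h else 0 := by
    intro m
    rw [hH, Polynomial.finsetSum_coeff]
    simp only [Polynomial.coeff_C_mul, Polynomial.coeff_X_pow]
    rw [Finset.sum_congr rfl (g := fun b => if m = b then PowerSeries.coeff b h else 0)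
      (fun b _ => by split_ifs <;> simp)]
    rw [Finset.sum_ite_eq]
    simp
  set P : Polynomial ℂ := w * H with hP
  have hPc : ∀ m, m < R → P.coeff m = PowerSeries.coeff m ((w : PowerSeries ℂ) * h) := by
    intro m hm
    rw [hP, Polynomial.coeff_mul, PowerSeries.coeff_mul]
    refine Finset.sum_congr rfl fun x hx => ?_
    have hx2 : x.2 ≤ m := by
      have := Finset.HasAntidiagonal.mem_antidiagonal.mp hx
      omega
    rw [hHc, if_pos (lt_of_le_of_lt hx2 hm), Polynomial.coeff_coe]
  have hev : ∀ z : ℂ, H.eval z = ∑ b ∈ range R, PowerSeries.coeff b h * z ^ b := by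
    intro z
    rw [hH, Polynomial.eval_finsetSum]
    simp
  have hprod : ∀ θ : ℝ, P.eval (zz θ) * (starRingEnd ℂ) (H.eval (zz θ)) =
      ∑ a ∈ range (P.natDegree + 1), ∑ b ∈ range R,
        (P.coeff a * (starRingEnd ℂ) (PowerSeries.coeff b h)) * (zz θ) ^ ((a : ℤ) - (b : ℤ)) := by
    intro θ
    rw [Polynomial.eval_eq_sum_range, hev, map_sum, Finset.sum_mul_sum]
    refine Finset.sum_congr rfl fun a _ => Finset.sum_congr rfl fun b _ => ?_
    rw [map_mul, map_pow, conj_zz, zpow_sub₀ (zz_ne θ), zpow_natCast, zpow_natCast, inv_pow]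
    ring
  have hint : ∫ θ, P.eval (zz θ) * (starRingEnd ℂ) (H.eval (zz θ)) ∂mu =
      ((2 * Real.pi : ℝ) : ℂ) * ac (w : PowerSeries ℂ) h R := by
    simp_rw [hprod]
    rw [MeasureTheory.integral_finsetSum]
    · rw [Finset.sum_congr rfl (fun a _ => MeasureTheory.integral_finsetSum _ (fun b _ => ?_))]
      · simp_rw [MeasureTheory.integral_const_mul, int_zz]
        rw [Finset.sum_comm, ac, Finset.mul_sum]
        refine Finset.sum_congr rfl fun b hb => ?_
        have hbR := Finset.mem_range.mp hb
        rw [← hPc b hbR]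
        by_cases hbN : b < P.natDegree + 1
        · rw [Finset.sum_eq_single b]
          · simp
            ring
          · intro a _ hab
            rw [if_neg (by omega), mul_zero]
          · intro hh
            exact absurd (Finset.mem_range.mpr hbN) hh
        · rw [Polynomial.coeff_eq_zero_of_natDegree_lt (n := b) (by omega), zero_mul, mul_zero]
          refine Finset.sum_eq_zero fun a ha => ?_
          have := Finset.mem_range.mp ha
          rw [if_neg (by omega), mul_zero]
      · exact (contC_integrable _ (zpow_continuous _)).const_mul _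
    · intro a _
      exact MeasureTheory.integrable_finsetSum _ fun b _ =>
        (contC_integrable _ (zpow_continuous _)).const_mul _
  have hcont : Continuous fun θ => P.eval (zz θ) * (starRingEnd ℂ) (H.eval (zz θ)) := by
    exact ((P.continuous.comp zz_continuous)).mul
      (Complex.continuous_conj.comp (H.continuous.comp zz_continuous))
  have hre : 0 ≤ (∫ θ, P.eval (zz θ) * (starRingEnd ℂ) (H.eval (zz θ)) ∂mu).re := by
    have h1 : (∫ θ, P.eval (zz θ) * (starRingEnd ℂ) (H.eval (zz θ)) ∂mu).re =
        ∫ θ, (P.eval (zz θ) * (starRingEnd ℂ) (H.eval (zz θ))).re ∂mu := by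
      have := integral_re (contC_integrable _ hcont)
      simpa using this.symm
    rw [h1]
    refine MeasureTheory.integral_nonneg fun θ => ?_
    have h2 : P.eval (zz θ) * (starRingEnd ℂ) (H.eval (zz θ)) =
        w.eval (zz θ) * ((Complex.normSq (H.eval (zz θ)) : ℝ) : ℂ) := by
      rw [hP, Polynomial.eval_mul, mul_assoc, Complex.mul_conj]
    show 0 ≤ (P.eval (zz θ) * (starRingEnd ℂ) (H.eval (zz θ))).re
    rw [h2, Complex.re_mul_ofReal]
    exact mul_nonneg (hw _ (norm_zz θ)) (Complex.normSq_nonneg _)
  rw [hint, Complex.re_ofReal_mul] at hre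
  have hpi : 0 < 2 * Real.pi := by positivity
  exact nonneg_of_mul_nonneg_right hre hpi

end Pool.Agent.Lib.MP_7ab245_nt.Cnt2
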